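import Pool.Agent.H807R2.Dav1

/-! The second moment of sums over primes of centered functions, in terms of the sum of the absolute values of the
characteristic function at the fractions with small denominators. (The first lemmas are those of `Pool.Agent.R459`.) -/

set_option autoImplicit false

namespace Pool.Agent.J4.H25.LT
open Finset
open Pool.Agent.H807R2.Dav

lemma ee_sum_range (p : ℕ) (hp : 1 ≤ p) (n : ℤ) :
    ∑ a ∈ range p, ee ((a : ℝ) * ((n : ℝ) / p)) = if (p : ℤ) ∣ n then (p : ℂ) else 0 := by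
  have hp0 : (p : ℝ) ≠ 0 := by exact_mod_cast (by omega : p ≠ 0)
  simp only [ee_pow]
  split_ifs with h
  · obtain ⟨l, rfl⟩ := h
    have e1 : (((p : ℤ) * l : ℤ) : ℝ) / p = (l : ℝ) := by
      push_cast
      field_simp
    rw [e1, ee_int]
    simp
  · have h1 : ee ((n : ℝ) / p) ≠ 1 := by
      intro h1
      unfold ee at h1
      rw [Complex.exp_eq_one_iff] at h1
      obtain ⟨l, hl⟩ := h1
      have h2 : (2 * Real.pi * Complex.I : ℂ) ≠ 0 := Complex.two_pi_I_ne_zero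
      have h3 : (((n : ℝ) / p : ℝ) : ℂ) = (l : ℂ) := by
        apply mul_left_cancel₀ h2
        rw [hl]
        ring
      have h4 : (n : ℝ) / p = l := by exact_mod_cast h3
      apply h
      refine ⟨l, ?_⟩
      rw [div_eq_iff hp0] at h4
      have : (n : ℝ) = (p : ℝ) * l := by rw [h4]; ring
      exact_mod_cast this
    have h2 := mul_geom_sum (ee ((n : ℝ) / p)) p
    have h3 : ee ((n : ℝ) / p) ^ p = 1 := by
      rw [← ee_pow]
      have : (p : ℝ) * ((n : ℝ) / p) = (n : ℝ) := by field_simp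
      rw [this, ee_int]
    rw [h3, sub_self] at h2
    rcases mul_eq_zero.1 h2 with h4 | h4
    · exact absurd (sub_eq_zero.1 h4) h1
    · exact h4

/-- the Fourier coefficients of a function modulo `p` -/
noncomputable def co (p : ℕ) (f : ℤ → ℝ) (a : ℕ) : ℂ :=
  (1 / (p : ℂ)) * ∑ t ∈ range p, (f t : ℂ) * ee (-((a : ℝ) * ((t : ℝ) / p)))

/-- the mean of a function modulo `p` -/
noncomputable def mean (p : ℕ) (f : ℤ → ℝ) : ℝ := (∑ t ∈ range p, f t) / p

/-- the function has period `p` -/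
def Per (p : ℕ) (f : ℤ → ℝ) : Prop := ∀ m n : ℤ, (p : ℤ) ∣ m - n → f m = f n

lemma co_zero (p : ℕ) (f : ℤ → ℝ) : co p f 0 = (mean p f : ℂ) := by
  unfold co mean
  simp only [Nat.cast_zero, zero_mul, neg_zero, ee_zero, mul_one]
  push_cast
  ring

lemma norm_co (p : ℕ) (hp : 1 ≤ p) (f : ℤ → ℝ) (hf : ∀ n, |f n| ≤ 1) (a : ℕ) : ‖co p f a‖ ≤ 1 := by
  have hp0 : (0 : ℝ) < p := by exact_mod_cast hp
  unfold co
  rw [norm_mul, norm_div, norm_one, Complex.norm_natCast, one_div, inv_mul_le_iff₀ hp0, mul_one]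
  refine (norm_sum_le _ _).trans ?_
  refine (sum_le_card_nsmul _ _ 1 fun t _ => ?_).trans ?_
  · rw [norm_mul, norm_ee, mul_one, Complex.norm_real]
    exact hf _
  · simp

lemma inversion (p : ℕ) (hp : 1 ≤ p) (f : ℤ → ℝ) (hper : Per p f) (v : ℤ) :
    (f v : ℂ) = ∑ a ∈ range p, co p f a * ee ((a : ℝ) * ((v : ℝ) / p)) := by
  have hp0 : (p : ℂ) ≠ 0 := by exact_mod_cast (by omega : p ≠ 0)
  have h1 : ∑ a ∈ range p, co p f a * ee ((a : ℝ) * ((v : ℝ) / p)) =
      ∑ t ∈ range p, (1 / (p : ℂ)) * (f t : ℂ) * ∑ a ∈ range p, ee ((a : ℝ) * (((v - t : ℤ) : ℝ) / p)) := by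
    unfold co
    simp only [mul_sum, sum_mul]
    rw [sum_comm]
    apply sum_congr rfl
    intro t _
    apply sum_congr rfl
    intro a _
    have e1 : ee ((a : ℝ) * (((v - t : ℤ) : ℝ) / p)) = ee (-((a : ℝ) * ((t : ℝ) / p))) * ee ((a : ℝ) * ((v : ℝ) / p)) := by
      rw [← ee_add]
      congr 1
      push_cast
      ring
    rw [e1]
    ring
  rw [h1]
  obtain ⟨t0, ht0⟩ : ∃ t0 : ℕ, (t0 : ℤ) = v % p := ⟨(v % p).toNat, by
    rw [Int.toNat_of_nonneg (Int.emod_nonneg _ (by omega))]⟩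
  have ht0p : t0 < p := by
    have := Int.emod_lt_of_pos v (by omega : (0 : ℤ) < p)
    omega
  have hdvd : (p : ℤ) ∣ v - t0 := by
    rw [ht0]
    exact Int.dvd_self_sub_emod
  rw [sum_eq_single t0]
  · rw [ee_sum_range p hp, if_pos hdvd, hper v t0 hdvd]
    field_simp
  · intro t ht hne
    rw [ee_sum_range p hp, if_neg, mul_zero]
    intro h
    apply hne
    rw [mem_range] at ht
    have h2 : (p : ℤ) ∣ (t : ℤ) - t0 := by
      have := dvd_sub hdvd h
      rwa [show v - (t0 : ℤ) - (v - t) = t - t0 by ring] at this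
    have h3 := Int.eq_zero_of_abs_lt_dvd h2 (by rw [abs_lt]; omega)
    omega
  · intro h
    exact absurd (mem_range.2 ht0p) h

lemma centered (p : ℕ) (hp : 1 ≤ p) (f : ℤ → ℝ) (hper : Per p f) (v : ℤ) :
    ((f v - mean p f : ℝ) : ℂ) = ∑ a ∈ Ico 1 p, co p f a * ee ((a : ℝ) * ((v : ℝ) / p)) := by
  rw [Complex.ofReal_sub, inversion p hp f hper v, range_eq_Ico, sum_eq_sum_Ico_succ_bot (by omega : 0 < p), co_zero]
  simp [ee_zero]

lemma cop (p q a b : ℕ) (hp : p.Prime) (hq : q.Prime) (hpq : p ≠ q) (ha : a ∈ Ico 1 p) (hb : b ∈ Ico 1 q) :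
    Nat.Coprime (a * q + b * p) (p * q) := by
  rw [mem_Ico] at ha hb
  have hcpq : Nat.Coprime p q := (Nat.coprime_primes hp hq).2 hpq
  apply Nat.Coprime.mul_right
  · rw [Nat.coprime_add_mul_right_left]
    apply Nat.Coprime.mul_left
    · exact (Nat.coprime_of_lt_prime (by omega) ha.2 hp).symm
    · exact hcpq.symm
  · rw [add_comm, Nat.coprime_add_mul_right_left]
    apply Nat.Coprime.mul_left
    · exact (Nat.coprime_of_lt_prime (by omega) hb.2 hq).symm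
    · exact hcpq

lemma mean_mem (p : ℕ) (hp : 1 ≤ p) (f : ℤ → ℝ) (hf : ∀ n, 0 ≤ f n ∧ f n ≤ 1) : 0 ≤ mean p f ∧ mean p f ≤ 1 := by
  have hp0 : (0 : ℝ) < p := by exact_mod_cast hp
  unfold mean
  constructor
  · exact div_nonneg (sum_nonneg fun t _ => (hf _).1) hp0.le
  · rw [div_le_one hp0]
    refine (sum_le_card_nsmul _ _ 1 fun t _ => (hf _).2).trans ?_
    simp

/-- pairs of primes -/
lemma pairs_le (x : ℕ) (P : Finset ℕ) (hP : ∀ p ∈ P, p.Prime ∧ p ≤ x) (h : ℕ → ℝ) (h0 : ∀ m, 0 ≤ h m) :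
    ∑ p ∈ P, ∑ q ∈ P, (if p ≠ q then h (p * q) else 0) ≤ 2 * ∑ m ∈ Icc 1 (x ^ 2), h m := by
  rw [← sum_product', ← sum_filter]
  obtain ⟨Q, hQ⟩ : ∃ Q : Finset (ℕ × ℕ), Q = (P ×ˢ P).filter (fun z => z.1 ≠ z.2) := ⟨_, rfl⟩
  rw [← hQ]
  obtain ⟨T, hT⟩ : ∃ T : Finset ℕ, T = Icc 1 (x ^ 2) := ⟨_, rfl⟩
  rw [← hT]
  have hmaps : ∀ z ∈ Q, z.1 * z.2 ∈ T := by
    intro z hz
    rw [hQ, mem_filter, mem_product] at hz
    rw [hT, mem_Icc]
    refine ⟨Nat.mul_pos (hP _ hz.1.1).1.pos (hP _ hz.1.2).1.pos, ?_⟩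
    rw [sq]
    exact Nat.mul_le_mul (hP _ hz.1.1).2 (hP _ hz.1.2).2
  rw [← sum_fiberwise_of_maps_to hmaps (fun z => h (z.1 * z.2)), mul_sum]
  apply sum_le_sum
  intro m hm
  rw [sum_congr rfl (fun z hz => by rw [(mem_filter.1 hz).2]), sum_const, nsmul_eq_mul]
  apply mul_le_mul_of_nonneg_right _ (h0 m)
  have h2 : (Q.filter (fun z => z.1 * z.2 = m)).card ≤ (univ : Finset Bool).card := by
    apply card_le_card_of_injOn (fun z => decide (z.1 < z.2))
    · intro z _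
      exact mem_coe.2 (mem_univ _)
    · intro z hz z' hz' h4
      rw [mem_coe, mem_filter, hQ, mem_filter, mem_product] at hz hz'
      simp only [decide_eq_decide] at h4
      have h3 : z.1 * z.2 = z'.1 * z'.2 := by rw [hz.2, hz'.2]
      have p1 := (hP _ hz.1.1.1).1
      have p2 := (hP _ hz.1.1.2).1
      have p3 := (hP _ hz'.1.1.1).1
      have p4 := (hP _ hz'.1.1.2).1
      have h5 : z.1 ∣ z'.1 * z'.2 := ⟨z.2, h3.symm⟩
      rcases (Nat.Prime.dvd_mul p1).1 h5 with h6 | h6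
      · have h7 : z.1 = z'.1 := (Nat.prime_dvd_prime_iff_eq p1 p3).1 h6
        rw [h7] at h3
        have h8 : z.2 = z'.2 := Nat.eq_of_mul_eq_mul_left p3.pos h3
        exact Prod.ext h7 h8
      · have h7 : z.1 = z'.2 := (Nat.prime_dvd_prime_iff_eq p1 p4).1 h6
        have h8 : z.2 = z'.1 := by
          rw [h7, mul_comm] at h3
          exact Nat.eq_of_mul_eq_mul_right p4.pos h3
        rw [h7, h8] at h4
        have h9 := hz'.1.2
        omega
  have h3 : (univ : Finset Bool).card = 2 := rfl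
  rw [h3] at h2
  exact_mod_cast h2

/-- the sum of the squares of the centered functions -/
lemma cent_sq {α : Type} (J : Finset α) (p : ℕ) (hp : 1 ≤ p) (f : α → ℤ → ℝ) (c : ℝ)
    (hf : ∀ n, ∑ j ∈ J, (f j n) ^ 2 ≤ c ^ 2) (n : ℤ) : ∑ j ∈ J, (f j n - mean p (f j)) ^ 2 ≤ 4 * c ^ 2 := by
  have hp0 : (0 : ℝ) < p := by exact_mod_cast hp
  have h1 : ∑ j ∈ J, (mean p (f j)) ^ 2 ≤ c ^ 2 := by
    have h2 : ∀ j ∈ J, (mean p (f j)) ^ 2 ≤ (∑ t ∈ range p, (f j t) ^ 2) / p := by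
      intro j _
      unfold mean
      rw [div_pow, div_le_div_iff₀ (by positivity) hp0]
      have h3 := sq_sum_le_card_mul_sum_sq (s := range p) (f := fun t : ℕ => f j t)
      rw [card_range] at h3
      calc (∑ t ∈ range p, f j t) ^ 2 * p ≤ (p * ∑ t ∈ range p, (f j t) ^ 2) * p := mul_le_mul_of_nonneg_right h3 hp0.le
        _ = _ := by ring
    refine (sum_le_sum h2).trans ?_
    rw [← sum_div, sum_comm, div_le_iff₀ hp0]
    refine (sum_le_card_nsmul (range p) (fun t : ℕ => ∑ j ∈ J, f j (t : ℤ) ^ 2) (c ^ 2) fun t _ => hf (t : ℤ)).trans ?_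
    rw [card_range, nsmul_eq_mul, mul_comm]
  have h2 : ∀ j ∈ J, (f j n - mean p (f j)) ^ 2 ≤ 2 * (f j n) ^ 2 + 2 * (mean p (f j)) ^ 2 := by
    intro j _
    nlinarith [sq_nonneg (f j n + mean p (f j))]
  refine (sum_le_sum h2).trans ?_
  rw [sum_add_distrib, ← mul_sum, ← mul_sum]
  linarith [hf n]

lemma mean_abs (p : ℕ) (hp : 1 ≤ p) (f : ℤ → ℝ) (hf : ∀ n, |f n| ≤ 1) : |mean p f| ≤ 1 := by
  have hp0 : (0 : ℝ) < p := by exact_mod_cast hp
  unfold mean
  rw [abs_div, abs_of_pos hp0, div_le_one hp0]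
  refine (abs_sum_le_sum_abs _ _).trans ((sum_le_card_nsmul (range p) (fun t : ℕ => |f (t : ℤ)|) 1 fun t _ => hf (t : ℤ)).trans ?_)
  simp

lemma mean_add' {α : Type} (J : Finset α) (p : ℕ) (f : α → ℤ → ℝ) : ∑ j ∈ J, mean p (f j) = mean p (fun n => ∑ j ∈ J, f j n) := by
  unfold mean
  rw [← sum_div, sum_comm]

end Pool.Agent.J4.H25.LT
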