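import Pool.Agent.J4.H25.LT.V0

/-! The second moment of sums over primes of centered functions, in terms of the sum of the absolute values of the
characteristic function at the fractions with small denominators. -/

set_option autoImplicit false

namespace Pool.Agent.J4.H25.LT
open Finset
open Pool.Agent.H807R2.Dav

/-- the characteristic function of a finite family of integers with weights -/
noncomputable def chf {ι : Type} (Ω : Finset ι) (w : ι → ℝ) (v : ι → ℤ) (θ : ℝ) : ℂ := ∑ i ∈ Ω, (w i : ℂ) * ee ((v i : ℝ) * θ)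

/-- the sum over the reduced fractions with the denominator `m` -/
noncomputable def hm {ι : Type} (Ω : Finset ι) (w : ι → ℝ) (v : ι → ℤ) (m : ℕ) : ℝ :=
  ∑ u ∈ (range m).filter (fun u => u.Coprime m), ‖chf Ω w v ((u : ℝ) / m)‖

lemma hm_nonneg {ι : Type} (Ω : Finset ι) (w : ι → ℝ) (v : ι → ℤ) (m : ℕ) : 0 ≤ hm Ω w v m :=
  sum_nonneg fun _ _ => norm_nonneg _

lemma chf_mod {ι : Type} (Ω : Finset ι) (w : ι → ℝ) (v : ι → ℤ) (m : ℕ) (hm : 1 ≤ m) (u : ℕ) :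
    chf Ω w v ((u : ℝ) / m) = chf Ω w v (((u % m : ℕ) : ℝ) / m) := by
  unfold chf
  have hm0 : (m : ℝ) ≠ 0 := by exact_mod_cast (by omega : m ≠ 0)
  apply sum_congr rfl
  intro i _
  congr 1
  obtain ⟨r, hr⟩ : ∃ r, r = u % m := ⟨_, rfl⟩
  obtain ⟨q, hq⟩ : ∃ q, q = u / m := ⟨_, rfl⟩
  have h0 : u = r + m * q := by rw [hr, hq]; exact (Nat.mod_add_div u m).symm
  have h1 : (u : ℝ) = (r : ℝ) + m * (q : ℝ) := by exact_mod_cast h0
  rw [← hr]
  have e : (v i : ℝ) * ((u : ℝ) / m) = (v i : ℝ) * ((r : ℝ) / m) + ((v i * (q : ℤ) : ℤ) : ℝ) := by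
    rw [h1]
    push_cast
    field_simp
  rw [e, ee_add_int]

lemma norm_co' (p : ℕ) (hp : 1 ≤ p) (f : ℤ → ℝ) (c : ℝ) (hf : ∀ n, |f n| ≤ c) (a : ℕ) : ‖co p f a‖ ≤ c := by
  have hp0 : (0 : ℝ) < p := by exact_mod_cast hp
  unfold co
  rw [norm_mul, norm_div, norm_one, Complex.norm_natCast, one_div, inv_mul_le_iff₀ hp0]
  refine (norm_sum_le _ _).trans ?_
  refine (sum_le_card_nsmul _ _ c fun t _ => ?_).trans ?_
  · rw [norm_mul, norm_ee, mul_one, Complex.norm_real]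
    exact hf _
  · simp

lemma norm_co_sq (p : ℕ) (hp : 1 ≤ p) (f : ℤ → ℝ) (a : ℕ) : ‖co p f a‖ ^ 2 ≤ mean p (fun n => (f n) ^ 2) := by
  have hp0 : (0 : ℝ) < p := by exact_mod_cast hp
  have h1 : ‖co p f a‖ ≤ (∑ t ∈ range p, |f (t : ℤ)|) / p := by
    unfold co
    rw [norm_mul, norm_div, norm_one, Complex.norm_natCast, one_div, inv_mul_le_iff₀ hp0, mul_div_cancel₀ _ hp0.ne']
    refine (norm_sum_le _ _).trans (sum_le_sum fun t _ => ?_)
    rw [norm_mul, norm_ee, mul_one, Complex.norm_real, Real.norm_eq_abs]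
  have h0 : 0 ≤ ‖co p f a‖ := norm_nonneg _
  refine (pow_le_pow_left₀ h0 h1 2).trans ?_
  unfold mean
  rw [div_pow, div_le_div_iff₀ (by positivity) hp0]
  have h3 := sq_sum_le_card_mul_sum_sq (s := range p) (f := fun t : ℕ => |f (t : ℤ)|)
  rw [card_range] at h3
  simp only [sq_abs] at h3
  calc (∑ t ∈ range p, |f (t : ℤ)|) ^ 2 * p ≤ (p * ∑ t ∈ range p, (f (t : ℤ)) ^ 2) * p := mul_le_mul_of_nonneg_right h3 hp0.le
    _ = _ := by ring

lemma mean_le_one (p : ℕ) (hp : 1 ≤ p) (f : ℤ → ℝ) (hf : ∀ n, f n ≤ 1) : mean p f ≤ 1 := by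
  have hp0 : (0 : ℝ) < p := by exact_mod_cast hp
  unfold mean
  rw [div_le_one hp0]
  refine (sum_le_card_nsmul (range p) (fun t : ℕ => f (t : ℤ)) 1 fun t _ => hf (t : ℤ)).trans ?_
  simp

lemma co_vec {α : Type} (J : Finset α) (p q : ℕ) (hp : 1 ≤ p) (hq : 1 ≤ q) (f g : α → ℤ → ℝ)
    (hf : ∀ n, ∑ j ∈ J, (f j n) ^ 2 ≤ 1) (hg : ∀ n, ∑ j ∈ J, (g j n) ^ 2 ≤ 1) (a b : ℕ) :
    ‖∑ j ∈ J, co p (f j) a * co q (g j) b‖ ≤ 1 := by
  have h1 : ∑ j ∈ J, ‖co p (f j) a‖ ^ 2 ≤ 1 := by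
    refine (sum_le_sum fun j _ => norm_co_sq p hp (f j) a).trans ?_
    rw [mean_add' J p (fun j n => (f j n) ^ 2)]
    exact mean_le_one p hp _ hf
  have h2 : ∑ j ∈ J, ‖co q (g j) b‖ ^ 2 ≤ 1 := by
    refine (sum_le_sum fun j _ => norm_co_sq q hq (g j) b).trans ?_
    rw [mean_add' J q (fun j n => (g j n) ^ 2)]
    exact mean_le_one q hq _ hg
  have h3 : ‖∑ j ∈ J, co p (f j) a * co q (g j) b‖ ≤ ∑ j ∈ J, ‖co p (f j) a‖ * ‖co q (g j) b‖ := by
    refine (norm_sum_le _ _).trans (le_of_eq ?_)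
    apply sum_congr rfl
    intro j _
    rw [norm_mul]
  have h4 := sum_mul_sq_le_sq_mul_sq J (fun j => ‖co p (f j) a‖) (fun j => ‖co q (g j) b‖)
  have h5 : 0 ≤ ∑ j ∈ J, ‖co p (f j) a‖ * ‖co q (g j) b‖ := sum_nonneg fun j _ => by positivity
  have h6 : (∑ j ∈ J, ‖co p (f j) a‖ * ‖co q (g j) b‖) ^ 2 ≤ 1 := by
    refine h4.trans ?_
    exact mul_le_one₀ h1 (sum_nonneg fun j _ => sq_nonneg _) h2
  refine h3.trans ?_
  nlinarith

/-- the covariance for two primes -/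
lemma cov1 {ι : Type} (Ω : Finset ι) (w : ι → ℝ) (v : ι → ℤ) {α : Type} (J : Finset α) (p q : ℕ) (hp : p.Prime) (hq : q.Prime)
    (hpq : p ≠ q) (f g : α → ℤ → ℝ) (hf : ∀ n, ∑ j ∈ J, (f j n) ^ 2 ≤ 1) (hg : ∀ n, ∑ j ∈ J, (g j n) ^ 2 ≤ 1)
    (hfp : ∀ j ∈ J, Per p (f j)) (hgq : ∀ j ∈ J, Per q (g j)) :
    |∑ j ∈ J, ∑ i ∈ Ω, w i * ((f j (v i) - mean p (f j)) * (g j (v i) - mean q (g j)))| ≤ hm Ω w v (p * q) := by
  have hp0 : (p : ℝ) ≠ 0 := by exact_mod_cast hp.ne_zero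
  have hq0 : (q : ℝ) ≠ 0 := by exact_mod_cast hq.ne_zero
  have h1 : ((∑ j ∈ J, ∑ i ∈ Ω, w i * ((f j (v i) - mean p (f j)) * (g j (v i) - mean q (g j))) : ℝ) : ℂ) =
      ∑ z ∈ Ico 1 p ×ˢ Ico 1 q, (∑ j ∈ J, co p (f j) z.1 * co q (g j) z.2) *
        chf Ω w v (((z.1 * q + z.2 * p : ℕ) : ℝ) / ((p * q : ℕ) : ℝ)) := by
    rw [Complex.ofReal_sum]
    have e0 : ∀ j ∈ J, ((∑ i ∈ Ω, w i * ((f j (v i) - mean p (f j)) * (g j (v i) - mean q (g j))) : ℝ) : ℂ) =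
        ∑ z ∈ Ico 1 p ×ˢ Ico 1 q, co p (f j) z.1 * co q (g j) z.2 *
          chf Ω w v (((z.1 * q + z.2 * p : ℕ) : ℝ) / ((p * q : ℕ) : ℝ)) := by
      intro j hj
      rw [Complex.ofReal_sum]
      unfold chf
      simp only [mul_sum]
      rw [sum_comm]
      apply sum_congr rfl
      intro i _
      rw [Complex.ofReal_mul, Complex.ofReal_mul, centered p hp.one_le (f j) (hfp j hj),
        centered q hq.one_le (g j) (hgq j hj), sum_mul_sum, ← sum_product', mul_sum]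
      apply sum_congr rfl
      intro z _
      have e1 : ee ((v i : ℝ) * (((z.1 * q + z.2 * p : ℕ) : ℝ) / ((p * q : ℕ) : ℝ))) =
          ee ((z.1 : ℝ) * ((v i : ℝ) / p)) * ee ((z.2 : ℝ) * ((v i : ℝ) / q)) := by
        rw [← ee_add]
        congr 1
        push_cast
        field_simp
      rw [e1]
      ring
    rw [sum_congr rfl e0, sum_comm]
    apply sum_congr rfl
    intro z _
    rw [sum_mul]
  rw [← Real.norm_eq_abs, ← Complex.norm_real, h1]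
  have hpq1 : 1 ≤ p * q := Nat.mul_pos hp.pos hq.pos
  have hcpq : Nat.Coprime p q := (Nat.coprime_primes hp hq).2 hpq
  calc ‖∑ z ∈ Ico 1 p ×ˢ Ico 1 q, (∑ j ∈ J, co p (f j) z.1 * co q (g j) z.2) *
        chf Ω w v (((z.1 * q + z.2 * p : ℕ) : ℝ) / ((p * q : ℕ) : ℝ))‖ ≤
        ∑ z ∈ Ico 1 p ×ˢ Ico 1 q, ‖chf Ω w v (((z.1 * q + z.2 * p : ℕ) : ℝ) / ((p * q : ℕ) : ℝ))‖ := by
          refine (norm_sum_le _ _).trans (sum_le_sum fun z _ => ?_)
          rw [norm_mul]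
          exact mul_le_of_le_one_left (norm_nonneg _) (co_vec J p q hp.one_le hq.one_le f g hf hg z.1 z.2)
    _ = ∑ z ∈ Ico 1 p ×ˢ Ico 1 q, ‖chf Ω w v ((((z.1 * q + z.2 * p) % (p * q) : ℕ) : ℝ) / ((p * q : ℕ) : ℝ))‖ := by
          apply sum_congr rfl
          intro z _
          rw [chf_mod Ω w v (p * q) hpq1]
    _ = ∑ u ∈ (Ico 1 p ×ˢ Ico 1 q).image (fun z : ℕ × ℕ => (z.1 * q + z.2 * p) % (p * q)),
          ‖chf Ω w v ((u : ℝ) / ((p * q : ℕ) : ℝ))‖ := by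
          rw [sum_image]
          intro z hz z' hz' heq
          rw [mem_coe, mem_product, mem_Ico, mem_Ico] at hz hz'
          have h2 : (z.1 * q + z.2 * p) ≡ (z'.1 * q + z'.2 * p) [MOD (p * q)] := heq
          have h3 : (z.1 * q) ≡ (z'.1 * q) [MOD p] := by
            have h4 := h2.of_mul_right q
            have h5 : z.1 * q + z.2 * p ≡ z.1 * q + 0 [MOD p] := Nat.ModEq.add_left _ (Nat.modEq_zero_iff_dvd.2 (Dvd.intro_left _ rfl))
            have h6 : z'.1 * q + z'.2 * p ≡ z'.1 * q + 0 [MOD p] := Nat.ModEq.add_left _ (Nat.modEq_zero_iff_dvd.2 (Dvd.intro_left _ rfl))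
            simpa using (h5.symm.trans (h4.trans h6))
          have h4 : (z.2 * p) ≡ (z'.2 * p) [MOD q] := by
            have h4 := h2.of_mul_left p
            have h5 : z.1 * q + z.2 * p ≡ 0 + z.2 * p [MOD q] := Nat.ModEq.add_right _ (Nat.modEq_zero_iff_dvd.2 (Dvd.intro_left _ rfl))
            have h6 : z'.1 * q + z'.2 * p ≡ 0 + z'.2 * p [MOD q] := Nat.ModEq.add_right _ (Nat.modEq_zero_iff_dvd.2 (Dvd.intro_left _ rfl))
            simpa using (h5.symm.trans (h4.trans h6))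
          have h5 : z.1 ≡ z'.1 [MOD p] := Nat.ModEq.cancel_right_of_coprime hcpq h3
          have h6 : z.2 ≡ z'.2 [MOD q] := Nat.ModEq.cancel_right_of_coprime hcpq.symm h4
          exact Prod.ext (Nat.ModEq.eq_of_lt_of_lt h5 hz.1.2 hz'.1.2) (Nat.ModEq.eq_of_lt_of_lt h6 hz.2.2 hz'.2.2)
    _ ≤ hm Ω w v (p * q) := by
          unfold hm
          apply sum_le_sum_of_subset_of_nonneg
          · intro u hu
            rw [mem_image] at hu
            obtain ⟨z, hz, rfl⟩ := hu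
            rw [mem_product] at hz
            rw [mem_filter, mem_range]
            refine ⟨Nat.mod_lt _ hpq1, ?_⟩
            have h2 := cop p q z.1 z.2 hp hq hpq hz.1 hz.2
            unfold Nat.Coprime
            rw [← Nat.gcd_rec, Nat.gcd_comm]
            exact h2
          · intro u _ _
            exact norm_nonneg _

lemma mean_cent (p : ℕ) (hp : 1 ≤ p) (f : ℤ → ℝ) : mean p (fun n => (f n - mean p f) ^ 2) ≤ mean p (fun n => (f n) ^ 2) := by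
  have hp0 : (0 : ℝ) < p := by exact_mod_cast hp
  obtain ⟨M, hM⟩ : ∃ M, M = mean p f := ⟨_, rfl⟩
  have h1 : ∑ t ∈ range p, f (t : ℤ) = p * M := by
    rw [hM]
    unfold mean
    field_simp
  rw [← hM]
  unfold mean
  apply div_le_div_of_nonneg_right _ hp0.le
  have e : ∑ t ∈ range p, (f (t : ℤ) - M) ^ 2 = ∑ t ∈ range p, (f (t : ℤ)) ^ 2 - p * M ^ 2 := by
    have e1 : ∀ t ∈ range p, (f (t : ℤ) - M) ^ 2 = (f (t : ℤ)) ^ 2 - 2 * M * f (t : ℤ) + M ^ 2 := by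
      intro t _
      ring
    rw [sum_congr rfl e1, sum_add_distrib, sum_sub_distrib, ← mul_sum, h1, sum_const, card_range, nsmul_eq_mul]
    ring
  rw [e]
  have : 0 ≤ (p : ℝ) * M ^ 2 := by positivity
  linarith

/-- the variance for one prime -/
lemma var1 {ι : Type} (Ω : Finset ι) (w : ι → ℝ) (hw1 : ∑ i ∈ Ω, w i = 1) (v : ι → ℤ) {α : Type} (J : Finset α)
    (p : ℕ) (hp : p.Prime) (f : α → ℤ → ℝ) (hf : ∀ n, ∑ j ∈ J, (f j n) ^ 2 ≤ 1) (hfp : ∀ j ∈ J, Per p (f j)) :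
    ∑ j ∈ J, ∑ i ∈ Ω, w i * ((f j (v i) - mean p (f j)) * (f j (v i) - mean p (f j))) ≤
      mean p (fun n => ∑ j ∈ J, (f j n) ^ 2) + 4 * hm Ω w v p := by
  obtain ⟨H, hH⟩ : ∃ H : ℤ → ℝ, H = fun n => ∑ j ∈ J, (f j n - mean p (f j)) ^ 2 := ⟨_, rfl⟩
  have hH4 : ∀ n, |H n| ≤ 4 := by
    intro n
    rw [hH]
    simp only
    rw [abs_of_nonneg (sum_nonneg fun j _ => sq_nonneg _)]
    have := cent_sq J p hp.one_le f 1 (by intro n; rw [one_pow]; exact hf n) n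
    linarith
  have hHper : Per p H := by
    intro m n h
    rw [hH]
    simp only
    apply sum_congr rfl
    intro j hj
    rw [hfp j hj m n h]
  have hmean : mean p H ≤ mean p (fun n => ∑ j ∈ J, (f j n) ^ 2) := by
    rw [hH, ← mean_add' J p (fun j n => (f j n - mean p (f j)) ^ 2), ← mean_add' J p (fun j n => (f j n) ^ 2)]
    exact sum_le_sum fun j _ => mean_cent p hp.one_le (f j)
  have e0 : ∑ j ∈ J, ∑ i ∈ Ω, w i * ((f j (v i) - mean p (f j)) * (f j (v i) - mean p (f j))) =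
      mean p H + ∑ i ∈ Ω, w i * (H (v i) - mean p H) := by
    have e1 : ∑ i ∈ Ω, w i * (H (v i) - mean p H) = ∑ i ∈ Ω, w i * H (v i) - mean p H := by
      simp only [mul_sub]
      rw [sum_sub_distrib, ← sum_mul, hw1, one_mul]
    rw [e1, sum_comm]
    have e2 : ∑ i ∈ Ω, ∑ j ∈ J, w i * ((f j (v i) - mean p (f j)) * (f j (v i) - mean p (f j))) = ∑ i ∈ Ω, w i * H (v i) := by
      apply sum_congr rfl
      intro i _
      rw [hH]
      simp only
      rw [mul_sum]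
      apply sum_congr rfl
      intro j _
      ring
    rw [e2]
    ring
  rw [e0]
  have h1 : ((∑ i ∈ Ω, w i * (H (v i) - mean p H) : ℝ) : ℂ) = ∑ a ∈ Ico 1 p, co p H a * chf Ω w v ((a : ℝ) / (p : ℝ)) := by
    rw [Complex.ofReal_sum]
    unfold chf
    simp only [mul_sum]
    rw [sum_comm]
    apply sum_congr rfl
    intro i _
    rw [Complex.ofReal_mul, centered p hp.one_le H hHper, mul_sum]
    apply sum_congr rfl
    intro a _
    have e1 : (a : ℝ) * ((v i : ℝ) / p) = (v i : ℝ) * ((a : ℝ) / p) := by ring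
    rw [e1]
    ring
  have h2 : |∑ i ∈ Ω, w i * (H (v i) - mean p H)| ≤ 4 * hm Ω w v p := by
    rw [← Real.norm_eq_abs, ← Complex.norm_real, h1]
    refine (norm_sum_le _ _).trans ?_
    have h3 : ∀ a ∈ Ico 1 p, ‖co p H a * chf Ω w v ((a : ℝ) / (p : ℝ))‖ ≤ 4 * ‖chf Ω w v ((a : ℝ) / (p : ℝ))‖ := by
      intro a _
      rw [norm_mul]
      exact mul_le_mul_of_nonneg_right (norm_co' p hp.one_le H 4 hH4 a) (norm_nonneg _)
    refine (sum_le_sum h3).trans ?_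
    rw [← mul_sum]
    apply mul_le_mul_of_nonneg_left _ (by norm_num)
    unfold hm
    apply sum_le_sum_of_subset_of_nonneg
    · intro a ha
      rw [mem_Ico] at ha
      rw [mem_filter, mem_range]
      exact ⟨ha.2, (Nat.coprime_of_lt_prime (by omega) ha.2 hp).symm⟩
    · intro u _ _
      exact norm_nonneg _
  have h3 := le_abs_self (∑ i ∈ Ω, w i * (H (v i) - mean p H))
  linarith

/-- **the second moment** -/
theorem vL1 {ι : Type} (Ω : Finset ι) (w : ι → ℝ) (hw1 : ∑ i ∈ Ω, w i = 1) (v : ι → ℤ)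
    (x : ℕ) (P : Finset ℕ) (hP : ∀ p ∈ P, p.Prime ∧ p ≤ x) {α : Type} (J : Finset α) (f : α → ℕ → ℤ → ℝ)
    (hf : ∀ p ∈ P, ∀ n, ∑ j ∈ J, (f j p n) ^ 2 ≤ 1) (hper : ∀ j ∈ J, ∀ p ∈ P, Per p (f j p)) :
    ∑ j ∈ J, ∑ i ∈ Ω, w i * (∑ p ∈ P, (f j p (v i) - mean p (f j p))) ^ 2 ≤ ∑ p ∈ P, mean p (fun n => ∑ j ∈ J, (f j p n) ^ 2) +
      6 * ∑ m ∈ Icc 1 (x ^ 2), hm Ω w v m := by
  have h1 : ∀ j ∈ J, ∑ i ∈ Ω, w i * (∑ p ∈ P, (f j p (v i) - mean p (f j p))) ^ 2 =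
      ∑ p ∈ P, ∑ q ∈ P, ∑ i ∈ Ω, w i * ((f j p (v i) - mean p (f j p)) * (f j q (v i) - mean q (f j q))) := by
    intro j _
    have e0 : ∀ i ∈ Ω, w i * (∑ p ∈ P, (f j p (v i) - mean p (f j p))) ^ 2 =
        ∑ p ∈ P, ∑ q ∈ P, w i * ((f j p (v i) - mean p (f j p)) * (f j q (v i) - mean q (f j q))) := by
      intro i _
      rw [sq, sum_mul_sum, mul_sum]
      apply sum_congr rfl
      intro p _
      rw [mul_sum]
    rw [sum_congr rfl e0, sum_comm]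
    apply sum_congr rfl
    intro p _
    rw [sum_comm]
  rw [sum_congr rfl h1]
  rw [sum_comm]
  have e5 : ∀ p ∈ P, ∑ j ∈ J, ∑ q ∈ P, ∑ i ∈ Ω, w i * ((f j p (v i) - mean p (f j p)) * (f j q (v i) - mean q (f j q))) =
      ∑ q ∈ P, ∑ j ∈ J, ∑ i ∈ Ω, w i * ((f j p (v i) - mean p (f j p)) * (f j q (v i) - mean q (f j q))) := by
    intro p _
    rw [sum_comm]
  rw [sum_congr rfl e5]
  have hterm : ∀ p ∈ P, ∀ q ∈ P, ∑ j ∈ J, ∑ i ∈ Ω, w i * ((f j p (v i) - mean p (f j p)) * (f j q (v i) - mean q (f j q))) ≤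
      (if p = q then (mean p (fun n => ∑ j ∈ J, (f j p n) ^ 2) + 4 * hm Ω w v p) else 0) +
        (if p ≠ q then hm Ω w v (p * q) else 0) := by
    intro p hp q hq
    by_cases hpq : p = q
    · rw [if_pos hpq, if_neg (show ¬ (p ≠ q) from fun h => h hpq), add_zero, ← hpq]
      exact var1 Ω w hw1 v J p (hP p hp).1 (fun j => f j p) (hf p hp) (fun j hj => hper j hj p hp)
    · rw [if_neg hpq, if_pos hpq, zero_add]
      exact (le_abs_self _).trans (cov1 Ω w v J p q (hP p hp).1 (hP q hq).1 hpq (fun j => f j p) (fun j => f j q)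
        (hf p hp) (hf q hq) (fun j hj => hper j hj p hp) (fun j hj => hper j hj q hq))
  refine (sum_le_sum fun p hp => sum_le_sum fun q hq => hterm p hp q hq).trans ?_
  simp only [sum_add_distrib]
  have e1 : ∑ p ∈ P, ∑ q ∈ P, (if p = q then (mean p (fun n => ∑ j ∈ J, (f j p n) ^ 2) + 4 * hm Ω w v p) else 0) =
      ∑ p ∈ P, mean p (fun n => ∑ j ∈ J, (f j p n) ^ 2) + 4 * ∑ p ∈ P, hm Ω w v p := by
    rw [sum_congr rfl (fun p hp => by rw [sum_ite_eq, if_pos hp]), sum_add_distrib, ← mul_sum]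
  have h2 := pairs_le x P hP (hm Ω w v) (hm_nonneg Ω w v)
  have h3 : ∑ p ∈ P, hm Ω w v p ≤ ∑ m ∈ Icc 1 (x ^ 2), hm Ω w v m := by
    apply sum_le_sum_of_subset_of_nonneg
    · intro p hp
      rw [mem_Icc]
      have h4 := (hP p hp).1.one_le
      have h5 := (hP p hp).2
      refine ⟨h4, ?_⟩
      nlinarith
    · intro m _ _
      exact hm_nonneg Ω w v m
  rw [e1]
  linarith

end Pool.Agent.J4.H25.LT
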