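import Pool.Agent.J4.H25.LT.V1

/-! Chaining, and all scales at once. (The first lemmas are those of `Pool.Agent.R459`.) -/

set_option autoImplicit false

namespace Pool.Agent.J4.H25.LT
open Finset
open Pool.Agent.H807R2.Dav

/-- dyadic chaining -/
theorem chain : ∀ (L : ℕ) (s : ℕ → ℝ) (t : ℕ), t ≤ 2 ^ L → (s t - s 0) ^ 2 ≤
    (L + 1) * ∑ l ∈ range (L + 1), ∑ i ∈ range (2 ^ (L - l)), (s ((i + 1) * 2 ^ l) - s (i * 2 ^ l)) ^ 2 := by
  intro L
  induction L with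
  | zero =>
    intro s t ht
    rw [pow_zero] at ht
    interval_cases t
    · simp
      positivity
    · simp
  | succ L ih =>
    intro s t ht
    obtain ⟨E, hE⟩ : ∃ E : (ℕ → ℝ) → ℝ, E = fun s => ∑ l ∈ range (L + 1), ∑ i ∈ range (2 ^ (L - l)),
      (s ((i + 1) * 2 ^ l) - s (i * 2 ^ l)) ^ 2 := ⟨_, rfl⟩
    obtain ⟨s', hs'⟩ : ∃ s' : ℕ → ℝ, s' = fun u => s (2 ^ L + u) := ⟨_, rfl⟩
    have hE0 : ∀ s, 0 ≤ E s := by
      intro s
      rw [hE]
      exact sum_nonneg fun l _ => sum_nonneg fun i _ => sq_nonneg _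
    have hrec : ∑ l ∈ range (L + 1 + 1), ∑ i ∈ range (2 ^ (L + 1 - l)), (s ((i + 1) * 2 ^ l) - s (i * 2 ^ l)) ^ 2 =
        E s + E s' + (s (2 ^ (L + 1)) - s 0) ^ 2 := by
      rw [sum_range_succ, Nat.sub_self, pow_zero, range_one, sum_singleton, zero_add, one_mul, zero_mul]
      congr 1
      rw [hE]
      simp only
      rw [← sum_add_distrib]
      apply sum_congr rfl
      intro l hl
      rw [mem_range] at hl
      have h1 : 2 ^ (L + 1 - l) = 2 ^ (L - l) + 2 ^ (L - l) := by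
        rw [show L + 1 - l = (L - l) + 1 by omega, pow_succ]
        ring
      rw [h1, sum_range_add]
      congr 1
      apply sum_congr rfl
      intro i _
      rw [hs']
      simp only
      have h2 : (2 ^ (L - l) + i + 1) * 2 ^ l = 2 ^ L + (i + 1) * 2 ^ l := by
        rw [add_assoc, add_mul, ← pow_add, Nat.sub_add_cancel (by omega)]
      have h3 : (2 ^ (L - l) + i) * 2 ^ l = 2 ^ L + i * 2 ^ l := by
        rw [add_mul, ← pow_add, Nat.sub_add_cancel (by omega)]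
      rw [h2, h3]
    rw [hrec]
    have hL0 : (0 : ℝ) ≤ L := Nat.cast_nonneg _
    have htop : (s (2 ^ L) - s 0) ^ 2 ≤ E s := by
      rw [hE]
      simp only
      have h1 : ∑ i ∈ range (2 ^ (L - L)), (s ((i + 1) * 2 ^ L) - s (i * 2 ^ L)) ^ 2 = (s (2 ^ L) - s 0) ^ 2 := by
        rw [Nat.sub_self, pow_zero, range_one, sum_singleton, zero_add, one_mul, zero_mul]
      rw [← h1]
      exact single_le_sum (f := fun l => ∑ i ∈ range (2 ^ (L - l)), (s ((i + 1) * 2 ^ l) - s (i * 2 ^ l)) ^ 2)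
        (fun l _ => sum_nonneg fun i _ => sq_nonneg _) (mem_range.2 (by omega))
    push_cast
    by_cases h : t ≤ 2 ^ L
    · have h1 := ih s t h
      have h2 : ∑ l ∈ range (L + 1), ∑ i ∈ range (2 ^ (L - l)), (s ((i + 1) * 2 ^ l) - s (i * 2 ^ l)) ^ 2 = E s := by rw [hE]
      rw [h2] at h1
      have h3 := hE0 s
      have h4 := hE0 s'
      have h5 := sq_nonneg (s (2 ^ (L + 1)) - s 0)
      nlinarith [mul_nonneg hL0 h4, mul_nonneg hL0 h5, mul_nonneg hL0 h3]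
    · obtain ⟨u, hu⟩ : ∃ u, t = 2 ^ L + u := ⟨t - 2 ^ L, by omega⟩
      have hu2 : u ≤ 2 ^ L := by
        rw [hu, pow_succ] at ht
        omega
      have h1 := ih s' u hu2
      have h2 : ∑ l ∈ range (L + 1), ∑ i ∈ range (2 ^ (L - l)), (s' ((i + 1) * 2 ^ l) - s' (i * 2 ^ l)) ^ 2 = E s' := by rw [hE]
      rw [h2] at h1
      have h3 : s t - s 0 = (s (2 ^ L) - s 0) + (s' u - s' 0) := by
        rw [hs', hu]
        simp only [add_zero]
        ring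
      rw [h3]
      obtain ⟨a, ha⟩ : ∃ a, a = s (2 ^ L) - s 0 := ⟨_, rfl⟩
      obtain ⟨c, hc⟩ : ∃ c, c = s' u - s' 0 := ⟨_, rfl⟩
      rw [← ha, ← hc]
      rw [← ha] at htop
      rw [← hc] at h1
      have hL1 : (0 : ℝ) < L + 1 := by linarith
      have h4 : (a + c) ^ 2 ≤ (L + 1 + 1) * a ^ 2 + (L + 1 + 1) / (L + 1) * c ^ 2 := by
        have h5 : (L + 1 + 1) * a ^ 2 + (L + 1 + 1) / (L + 1) * c ^ 2 - (a + c) ^ 2 = ((L + 1) * a - c) ^ 2 / (L + 1) := by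
          field_simp
          ring
        have h6 : 0 ≤ ((L + 1) * a - c) ^ 2 / (L + 1) := by positivity
        linarith
      have h5 : (L + 1 + 1) / (L + 1) * c ^ 2 ≤ (L + 1 + 1) * E s' := by
        calc (L + 1 + 1) / (L + 1) * c ^ 2 ≤ (L + 1 + 1) / (L + 1) * ((L + 1) * E s') :=
              mul_le_mul_of_nonneg_left h1 (by positivity)
          _ = _ := by field_simp
      have h6 : (L + 1 + 1) * a ^ 2 ≤ (L + 1 + 1) * E s := mul_le_mul_of_nonneg_left htop (by positivity)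
      have h7 : 0 ≤ (L + 1 + 1) * (s (2 ^ (L + 1)) - s 0) ^ 2 := by positivity
      calc (a + c) ^ 2 ≤ (L + 1 + 1) * E s + (L + 1 + 1) * E s' := by linarith
        _ ≤ (L + 1 + 1) * (E s + E s' + (s (2 ^ (L + 1)) - s 0) ^ 2) := by linarith

/-- a union of events, with weights -/
lemma wunion' {ι τ : Type} (w : ι → ℝ) (E : Finset ι) (hw : ∀ i ∈ E, 0 ≤ w i) (Q : Finset τ) (R : τ → ι → Prop)
    (hR : ∀ i ∈ E, ∃ q ∈ Q, R q i) (B : τ → ℝ)
    (hB : ∀ q ∈ Q, ∀ E' : Finset ι, E' ⊆ E → (∀ i ∈ E', R q i) → ∑ i ∈ E', w i ≤ B q) :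
    ∑ i ∈ E, w i ≤ ∑ q ∈ Q, B q := by
  classical
  calc ∑ i ∈ E, w i ≤ ∑ i ∈ E, ∑ q ∈ Q, (if R q i then w i else 0) := by
        apply sum_le_sum
        intro i hi
        obtain ⟨q, hq, hqi⟩ := hR i hi
        calc w i = if R q i then w i else 0 := by rw [if_pos hqi]
          _ ≤ _ := single_le_sum (f := fun q => if R q i then w i else 0) (fun q _ => by
            split_ifs
            · exact hw i hi
            · exact le_rfl) hq
    _ = ∑ q ∈ Q, ∑ i ∈ E.filter (fun i => R q i), w i := by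
        rw [sum_comm]
        apply sum_congr rfl
        intro q _
        rw [sum_filter]
    _ ≤ ∑ q ∈ Q, B q := by
        apply sum_le_sum
        intro q hq
        exact hB q hq _ (filter_subset _ _) fun i hi => (Finset.mem_filter.1 hi).2

/-- the tail of a series -/
lemma tail_sum (C r : ℝ) (e : ℕ) (hC : 0 ≤ C) (hr0 : 0 < r) (hr1 : r < 1) : ∃ L₀ : ℕ, ∀ L₁ : ℕ, L₀ ≤ L₁ → ∀ I : Finset ℕ,
    (∀ L ∈ I, L₁ ≤ L) → ∑ L ∈ I, C * ((L : ℝ) + 1) ^ e * r ^ (2 * L) ≤ r ^ L₁ := by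
  classical
  have hsum : Summable (fun L : ℕ => C * ((L : ℝ) + 1) ^ e * r ^ L) := by
    have h1 := summable_pow_mul_geometric_of_norm_lt_one e (r := r) (by rw [Real.norm_of_nonneg hr0.le]; exact hr1)
    have h2 := (summable_nat_add_iff 1).2 h1
    have h3 := h2.mul_left (C / r)
    refine h3.congr fun L => ?_
    push_cast
    rw [pow_succ]
    field_simp
  obtain ⟨s, hs⟩ := hsum.vanishing (Iio_mem_nhds (show (0 : ℝ) < 1 by norm_num))
  obtain ⟨L₀, hL₀⟩ : ∃ L₀, ∀ L ∈ s, L < L₀ := by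
    refine ⟨s.sup id + 1, fun L hL => ?_⟩
    have := Finset.le_sup (f := id) hL
    simp only [id] at this
    omega
  refine ⟨L₀, fun L₁ hL₁ I hI => ?_⟩
  have h1 := hs I (by
    rw [Finset.disjoint_left]
    intro L hL hLs
    have h1 := hI L hL
    have h2 := hL₀ L hLs
    omega)
  have h2 : ∑ L ∈ I, C * ((L : ℝ) + 1) ^ e * r ^ L < 1 := h1
  calc ∑ L ∈ I, C * ((L : ℝ) + 1) ^ e * r ^ (2 * L) ≤ ∑ L ∈ I, (C * ((L : ℝ) + 1) ^ e * r ^ L) * r ^ L₁ := by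
        apply sum_le_sum
        intro L hL
        rw [two_mul, pow_add, ← mul_assoc]
        apply mul_le_mul_of_nonneg_left _ (by positivity)
        exact pow_le_pow_of_le_one hr0.le hr1.le (hI L hL)
    _ = (∑ L ∈ I, C * ((L : ℝ) + 1) ^ e * r ^ L) * r ^ L₁ := by rw [sum_mul]
    _ ≤ 1 * r ^ L₁ := mul_le_mul_of_nonneg_right h2.le (by positivity)
    _ = _ := one_mul _

/-- the primes up to `x` -/
def pri (x : ℕ) : Finset ℕ := (range (x + 1)).filter Nat.Prime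

lemma mem_pri {x p : ℕ} : p ∈ pri x ↔ p ≤ x ∧ p.Prime := by
  unfold pri
  rw [mem_filter, mem_range]
  constructor
  · rintro ⟨h1, h2⟩
    exact ⟨by omega, h2⟩
  · rintro ⟨h1, h2⟩
    exact ⟨by omega, h2⟩

/-- a system of functions, where `a p` depends on the residue modulo `p` only -/
def Sys (a : ℕ → ℤ → ℝ) : Prop := ∀ p : ℕ, p.Prime → ∀ m n : ℤ, (p : ℤ) ∣ m - n → a p m = a p n

/-- a system of functions with values in `[-1, 1]` -/
def Sysb (g : ℕ → ℤ → ℝ) : Prop := Sys g ∧ ∀ p : ℕ, p.Prime → ∀ n : ℤ, |g p n| ≤ 1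

/-- the sum of the mean squares -/
noncomputable def Vs (g : ℕ → ℤ → ℝ) (x : ℕ) : ℝ := ∑ p ∈ pri x, mean p (fun n => (g p n) ^ 2)

lemma mean_sq_nonneg (p : ℕ) (f : ℤ → ℝ) : 0 ≤ mean p (fun n => (f n) ^ 2) := by
  unfold mean
  exact div_nonneg (sum_nonneg fun t _ => sq_nonneg _) (Nat.cast_nonneg _)

lemma Vs_nonneg (g : ℕ → ℤ → ℝ) (x : ℕ) : 0 ≤ Vs g x := sum_nonneg fun p _ => mean_sq_nonneg p _

lemma pri_mono {x y : ℕ} (h : x ≤ y) : pri x ⊆ pri y := by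
  intro p hp
  rw [mem_pri] at hp ⊢
  exact ⟨hp.1.trans h, hp.2⟩

lemma Vs_mono (g : ℕ → ℤ → ℝ) {x y : ℕ} (h : x ≤ y) : Vs g x ≤ Vs g y :=
  sum_le_sum_of_subset_of_nonneg (pri_mono h) fun p _ _ => mean_sq_nonneg p _

lemma mean_mono (p : ℕ) (f g : ℤ → ℝ) (h : ∀ t : ℕ, t < p → f t ≤ g t) : mean p f ≤ mean p g := by
  unfold mean
  apply div_le_div_of_nonneg_right _ (Nat.cast_nonneg _)
  apply sum_le_sum
  intro t ht
  exact h t (mem_range.1 ht)

/-- the tail of the series, for the exceptional sets -/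
lemma tail2 (C δ : ℝ) (e : ℕ) (hC : 0 ≤ C) (hδ : 0 < δ) : ∃ X₀ : ℕ, ∀ X : ℕ, X₀ ≤ X → ∀ I : Finset ℕ, (∀ L ∈ I, Nat.clog 2 X ≤ L) →
    ∑ L ∈ I, C * ((L : ℝ) + 1) ^ e * (2 : ℝ) ^ (-(δ * L)) ≤ (X : ℝ) ^ (-(δ / 2)) := by
  obtain ⟨r, hr⟩ : ∃ r : ℝ, r = (2 : ℝ) ^ (-(δ / 2)) := ⟨_, rfl⟩
  have hr0 : 0 < r := by rw [hr]; positivity
  have hr1 : r < 1 := by
    rw [hr]
    exact Real.rpow_lt_one_of_one_lt_of_neg (by norm_num) (by linarith)
  obtain ⟨L₀, hL₀⟩ := tail_sum C r e hC hr0 hr1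
  refine ⟨2 ^ L₀ + 1, fun X hX I hI => ?_⟩
  have hpo : 1 ≤ 2 ^ L₀ := Nat.one_le_two_pow
  have hXr : (0 : ℝ) < X := by exact_mod_cast (by omega : 0 < X)
  obtain ⟨L₁, hL₁⟩ : ∃ L₁, L₁ = Nat.clog 2 X := ⟨_, rfl⟩
  have hXL₁ : X ≤ 2 ^ L₁ := by rw [hL₁]; exact Nat.le_pow_clog (by norm_num) X
  have hL₀₁ : L₀ ≤ L₁ := by
    have : 2 ^ L₀ ≤ 2 ^ L₁ := by omega
    exact (Nat.pow_le_pow_iff_right (by norm_num)).1 this
  have h1 := hL₀ L₁ hL₀₁ I (by rw [hL₁]; exact hI)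
  have e1 : ∀ L ∈ I, C * ((L : ℝ) + 1) ^ e * (2 : ℝ) ^ (-(δ * L)) = C * ((L : ℝ) + 1) ^ e * r ^ (2 * L) := by
    intro L _
    congr 1
    rw [hr, ← Real.rpow_natCast, ← Real.rpow_mul (by norm_num)]
    congr 1
    push_cast
    ring
  rw [sum_congr rfl e1]
  refine h1.trans ?_
  rw [hr, ← Real.rpow_natCast, ← Real.rpow_mul (by norm_num), mul_comm, Real.rpow_mul (by norm_num), Real.rpow_natCast]
  rw [Real.rpow_neg (by positivity), Real.rpow_neg hXr.le]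
  apply inv_anti₀ (by positivity)
  apply Real.rpow_le_rpow hXr.le _ (by linarith)
  exact_mod_cast hXL₁

/-- the bound for the second moment, with the error `A x` for the primes up to `x` -/
def VarB {ι : Type} (Ω : Finset ι) (w : ι → ℝ) (v : ι → ℤ) (A : ℕ → ℝ) : Prop :=
  ∀ (x : ℕ) (P : Finset ℕ), (∀ p ∈ P, p.Prime ∧ p ≤ x) → ∀ (J : Finset ℕ) (f : ℕ → ℕ → ℤ → ℝ),
    (∀ p ∈ P, ∀ n, ∑ j ∈ J, (f j p n) ^ 2 ≤ 1) → (∀ j ∈ J, ∀ p ∈ P, Per p (f j p)) →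
    ∑ j ∈ J, ∑ i ∈ Ω, w i * (∑ p ∈ P, (f j p (v i) - mean p (f j p))) ^ 2 ≤
      ∑ p ∈ P, mean p (fun n => ∑ j ∈ J, (f j p n) ^ 2) + A x

/-- the mean square of the maximal deviation -/
theorem fine_scale {ι : Type} (Ω : Finset ι) (w : ι → ℝ) (v : ι → ℤ) (A : ℕ → ℝ) (hA : VarB Ω w v A) (L : ℕ)
    (g : ℕ → ℤ → ℝ) (hg : Sysb g) :
      ∃ Q : ι → ℝ, (∀ i ∈ Ω, 0 ≤ Q i) ∧ ∑ i ∈ Ω, w i * Q i ≤ (L + 1) ^ 2 * (Vs g (2 ^ L) + A (2 ^ L)) ∧
        ∀ i ∈ Ω, ∀ t : ℕ, t ≤ 2 ^ L → (∑ p ∈ pri t, (g p (v i) - mean p (g p))) ^ 2 ≤ Q i := by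
  classical
  obtain ⟨P, hPd⟩ : ∃ P : Finset ℕ, P = pri (2 ^ L) := ⟨_, rfl⟩
  have hP : ∀ p ∈ P, p.Prime ∧ p ≤ 2 ^ L := by
    intro p hp
    rw [hPd, mem_pri] at hp
    exact ⟨hp.2, hp.1⟩
  obtain ⟨f, hf⟩ : ∃ f : ℕ → ℕ → ℕ → ℤ → ℝ, f = fun l i p n => if i * 2 ^ l < p ∧ p ≤ (i + 1) * 2 ^ l then g p n else 0 := ⟨_, rfl⟩
  have hLr : (0 : ℝ) ≤ L := Nat.cast_nonneg _
  have hfs : ∀ l, ∀ p ∈ P, ∀ n, ∑ z ∈ range (2 ^ (L - l)), (f l z p n) ^ 2 ≤ (g p n) ^ 2 := by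
    intro l p hp n
    have h2 : ∀ z ∈ range (2 ^ (L - l)), (f l z p n) ^ 2 ≤ if (p - 1) / 2 ^ l = z then (g p n) ^ 2 else 0 := by
      intro z _
      rw [hf]
      simp only
      by_cases h : z * 2 ^ l < p ∧ p ≤ (z + 1) * 2 ^ l
      · rw [if_pos h, if_pos]
        apply Nat.div_eq_of_lt_le
        · omega
        · omega
      · rw [if_neg h]
        split_ifs
        · rw [zero_pow (by norm_num)]
          exact sq_nonneg _
        · norm_num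
    refine (sum_le_sum h2).trans ?_
    rw [sum_ite_eq]
    split_ifs
    · exact le_rfl
    · exact sq_nonneg _
  have hlev : ∀ l, ∑ z ∈ range (2 ^ (L - l)), ∑ i ∈ Ω, w i * (∑ p ∈ P, (f l z p (v i) - mean p (f l z p))) ^ 2 ≤
      Vs g (2 ^ L) + A (2 ^ L) := by
    intro l
    have h1 := hA (2 ^ L) P hP (range (2 ^ (L - l))) (f l) (by
      intro p hp n
      refine (hfs l p hp n).trans ?_
      rw [← sq_abs]
      exact pow_le_one₀ (abs_nonneg _) (hg.2 p (hP p hp).1 n)) (by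
      intro z _ p hp m' n' hmn
      rw [hf]
      simp only
      rw [hg.1 p (hP p hp).1 m' n' hmn])
    refine h1.trans ?_
    have e3 : ∑ p ∈ P, mean p (fun n => ∑ z ∈ range (2 ^ (L - l)), (f l z p n) ^ 2) ≤ Vs g (2 ^ L) := by
      unfold Vs
      rw [hPd]
      apply sum_le_sum
      intro p hp
      apply mean_mono
      intro t _
      exact hfs l p (by rw [hPd]; exact hp) t
    linarith
  refine ⟨fun i => (L + 1) * ∑ l ∈ range (L + 1), ∑ z ∈ range (2 ^ (L - l)),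
    (∑ p ∈ P, (f l z p (v i) - mean p (f l z p))) ^ 2, ?_, ?_, ?_⟩
  · intro i _
    have : 0 ≤ ∑ l ∈ range (L + 1), ∑ z ∈ range (2 ^ (L - l)), (∑ p ∈ P, (f l z p (v i) - mean p (f l z p))) ^ 2 :=
      sum_nonneg fun l _ => sum_nonneg fun z _ => sq_nonneg _
    positivity
  · have e1 : ∑ i ∈ Ω, w i * ((L + 1) * ∑ l ∈ range (L + 1), ∑ z ∈ range (2 ^ (L - l)),
        (∑ p ∈ P, (f l z p (v i) - mean p (f l z p))) ^ 2) =
        (L + 1) * ∑ l ∈ range (L + 1), ∑ z ∈ range (2 ^ (L - l)),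
          ∑ i ∈ Ω, w i * (∑ p ∈ P, (f l z p (v i) - mean p (f l z p))) ^ 2 := by
      have e2 : ∀ i ∈ Ω, w i * ((L + 1) * ∑ l ∈ range (L + 1), ∑ z ∈ range (2 ^ (L - l)),
          (∑ p ∈ P, (f l z p (v i) - mean p (f l z p))) ^ 2) =
          (L + 1) * ∑ l ∈ range (L + 1), ∑ z ∈ range (2 ^ (L - l)),
          w i * (∑ p ∈ P, (f l z p (v i) - mean p (f l z p))) ^ 2 := by
        intro i _
        rw [mul_left_comm]
        congr 1
        rw [mul_sum]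
        apply sum_congr rfl
        intro l _
        rw [mul_sum]
      rw [sum_congr rfl e2, ← mul_sum]
      congr 1
      rw [sum_comm]
      apply sum_congr rfl
      intro l _
      rw [sum_comm]
    rw [e1]
    have h2 : ∑ l ∈ range (L + 1), ∑ z ∈ range (2 ^ (L - l)),
          ∑ i ∈ Ω, w i * (∑ p ∈ P, (f l z p (v i) - mean p (f l z p))) ^ 2 ≤
          (L + 1) * (Vs g (2 ^ L) + A (2 ^ L)) := by
      refine (sum_le_card_nsmul _ _ _ fun l _ => hlev l).trans ?_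
      rw [card_range, nsmul_eq_mul]
      push_cast
      exact le_refl _
    calc _ ≤ ((L : ℝ) + 1) * ((L + 1) * (Vs g (2 ^ L) + A (2 ^ L))) :=
          mul_le_mul_of_nonneg_left h2 (by positivity)
      _ = _ := by ring
  · intro i _ t ht
    obtain ⟨s, hs⟩ : ∃ s : ℕ → ℝ, s = fun t => ∑ p ∈ P.filter (fun p => p ≤ t), (g p (v i) - mean p (g p)) := ⟨_, rfl⟩
    have h0 : s 0 = 0 := by
      rw [hs]
      simp only
      have : P.filter (fun p => p ≤ 0) = ∅ := by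
        rw [filter_eq_empty_iff]
        intro p hp
        have := (hP p hp).1.pos
        omega
      rw [this, sum_empty]
    have h1 := chain L s t ht
    rw [h0, sub_zero] at h1
    have h2 : ∀ l z, s ((z + 1) * 2 ^ l) - s (z * 2 ^ l) = ∑ p ∈ P, (f l z p (v i) - mean p (f l z p)) := by
      intro l z
      have hle : z * 2 ^ l ≤ (z + 1) * 2 ^ l := Nat.mul_le_mul_right _ (by omega)
      rw [hs, hf]
      simp only
      rw [sum_filter, sum_filter, ← sum_sub_distrib]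
      apply sum_congr rfl
      intro p _
      by_cases k1 : p ≤ z * 2 ^ l
      · have k2 : p ≤ (z + 1) * 2 ^ l := k1.trans hle
        have k3 : ¬ (z * 2 ^ l < p ∧ p ≤ (z + 1) * 2 ^ l) := by omega
        rw [if_pos k1, if_pos k2]
        unfold mean
        simp [k3]
      · by_cases k2 : p ≤ (z + 1) * 2 ^ l
        · have k3 : (z * 2 ^ l < p ∧ p ≤ (z + 1) * 2 ^ l) := by omega
          rw [if_neg k1, if_pos k2]
          unfold mean
          simp [k3]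
        · have k3 : ¬ (z * 2 ^ l < p ∧ p ≤ (z + 1) * 2 ^ l) := by omega
          rw [if_neg k1, if_neg k2]
          unfold mean
          simp [k3]
    simp only [h2] at h1
    have h3 : s t = ∑ p ∈ pri t, (g p (v i) - mean p (g p)) := by
      rw [hs, hPd]
      simp only
      congr 1
      ext p
      rw [mem_filter, mem_pri, mem_pri]
      constructor
      · rintro ⟨⟨h4, h5⟩, h6⟩
        exact ⟨h6, h5⟩
      · rintro ⟨h4, h5⟩
        exact ⟨⟨h4.trans ht, h5⟩, h4⟩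
    rw [← h3]
    exact h1

/-- all scales, with general thresholds -/
theorem scales {ι : Type} (Ω : Finset ι) (w : ι → ℝ) (hw : ∀ i ∈ Ω, 0 ≤ w i) (v : ι → ℤ) (A : ℕ → ℝ) (hA : VarB Ω w v A)
    (X : ℕ) (g : ℕ → ℕ → ℤ → ℝ) (hg : ∀ j, Sysb (g j)) (JJ : ℕ → Finset ℕ) (y : ℕ → ℕ → ℝ) (hy : ∀ L j, 0 < y L j)
    (E : Finset ι) (hE : E ⊆ Ω) (hbad : ∀ i ∈ E, ∃ x : ℕ, X ≤ x ∧ ∃ j ∈ JJ (Nat.clog 2 x),
      y (Nat.clog 2 x) j < |∑ p ∈ pri x, (g j p (v i) - mean p (g j p))|) :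
    ∃ I : Finset ℕ, (∀ L ∈ I, Nat.clog 2 X ≤ L) ∧ ∑ i ∈ E, w i ≤
      ∑ L ∈ I, ((L : ℝ) + 1) ^ 2 * ∑ j ∈ JJ L, (Vs (g j) (2 ^ L) + A (2 ^ L)) / (y L j) ^ 2 := by
  classical
  choose! xx hxx using hbad
  obtain ⟨I, hI⟩ : ∃ I : Finset ℕ, I = E.image (fun i => Nat.clog 2 (xx i)) := ⟨_, rfl⟩
  have hun := wunion' w E (fun i hi => hw i (hE hi)) I
    (fun L i => ∃ j ∈ JJ L, ∃ x : ℕ, x ≤ 2 ^ L ∧ y L j < |∑ p ∈ pri x, (g j p (v i) - mean p (g j p))|) (by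
      intro i hi
      obtain ⟨hXx, j, hj, hdev⟩ := hxx i hi
      refine ⟨Nat.clog 2 (xx i), ?_, j, hj, xx i, Nat.le_pow_clog (by norm_num) _, hdev⟩
      rw [hI, mem_image]
      exact ⟨i, hi, rfl⟩)
    (fun L => ((L : ℝ) + 1) ^ 2 * ∑ j ∈ JJ L, (Vs (g j) (2 ^ L) + A (2 ^ L)) / (y L j) ^ 2) (by
      intro L _ E' hE' hE''
      have hex : ∀ j, ∃ Q : ι → ℝ, (∀ i ∈ Ω, 0 ≤ Q i) ∧ ∑ i ∈ Ω, w i * Q i ≤ (L + 1) ^ 2 * (Vs (g j) (2 ^ L) + A (2 ^ L)) ∧
          ∀ i ∈ Ω, ∀ t : ℕ, t ≤ 2 ^ L → (∑ p ∈ pri t, (g j p (v i) - mean p (g j p))) ^ 2 ≤ Q i :=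
        fun j => fine_scale Ω w v A hA L (g j) (hg j)
      choose Q hQ0 hQ1 hQ2 using hex
      calc ∑ i ∈ E', w i ≤ ∑ i ∈ E', w i * ∑ j ∈ JJ L, Q j i / (y L j) ^ 2 := by
            apply sum_le_sum
            intro i hi
            have hiΩ := hE (hE' hi)
            obtain ⟨j, hj, x, hx, hdev⟩ := hE'' i hi
            have h1 := hQ2 j i hiΩ x hx
            have h2 : (y L j) ^ 2 ≤ Q j i := by
              refine le_trans ?_ h1
              rw [← sq_abs (∑ p ∈ _, _)]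
              exact pow_le_pow_left₀ (hy L j).le hdev.le 2
            have h3 : 1 ≤ Q j i / (y L j) ^ 2 := by
              rw [one_le_div (pow_pos (hy L j) 2)]
              exact h2
            have h4 : Q j i / (y L j) ^ 2 ≤ ∑ j ∈ JJ L, Q j i / (y L j) ^ 2 :=
              single_le_sum (f := fun j => Q j i / (y L j) ^ 2) (fun j' _ => div_nonneg (hQ0 j' i hiΩ) (sq_nonneg _)) hj
            calc w i = w i * 1 := (mul_one _).symm
              _ ≤ _ := mul_le_mul_of_nonneg_left (h3.trans h4) (hw i hiΩ)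
        _ ≤ ∑ i ∈ Ω, w i * ∑ j ∈ JJ L, Q j i / (y L j) ^ 2 :=
            sum_le_sum_of_subset_of_nonneg (hE'.trans hE) fun i hi _ => mul_nonneg (hw i hi)
              (sum_nonneg fun j _ => div_nonneg (hQ0 j i hi) (sq_nonneg _))
        _ = ∑ j ∈ JJ L, (∑ i ∈ Ω, w i * Q j i) / (y L j) ^ 2 := by
            simp only [mul_sum]
            rw [sum_comm]
            apply sum_congr rfl
            intro j _
            rw [sum_div]
            apply sum_congr rfl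
            intro i _
            rw [mul_div_assoc]
        _ ≤ ∑ j ∈ JJ L, ((L + 1) ^ 2 * (Vs (g j) (2 ^ L) + A (2 ^ L))) / (y L j) ^ 2 := by
            apply sum_le_sum
            intro j _
            exact div_le_div_of_nonneg_right (hQ1 j) (sq_nonneg _)
        _ = _ := by
            rw [mul_sum]
            apply sum_congr rfl
            intro j _
            rw [mul_div_assoc])
  refine ⟨I, ?_, hun⟩
  intro L hL
  rw [hI, mem_image] at hL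
  obtain ⟨i, hi, rfl⟩ := hL
  exact Nat.clog_mono_right 2 (hxx i hi).1

end Pool.Agent.J4.H25.LT
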