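import Pool.Agent.J4.H25.LT.V2

/-! All scales and many systems at once: powers of `x` and powers of `log x`. -/

set_option autoImplicit false

namespace Pool.Agent.J4.H25.LT
open Finset
open Pool.Agent.H807R2.Dav

/-- many systems at all scales, with general thresholds -/
theorem fineG {ι : Type} (Ω : Finset ι) (w : ι → ℝ) (hw : ∀ i ∈ Ω, 0 ≤ w i) (v : ι → ℤ) (B : ℕ → ℝ) (hB0 : ∀ x, 0 < B x)
    (hBm : ∀ x L : ℕ, 2 ^ L ≤ 2 * x → B (2 ^ L) ≤ 16 * B x) (c : ℝ) (hc : 0 ≤ c) (hV : VarB Ω w v (fun x => c * B x))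
    (g : ℕ → ℕ → ℤ → ℝ) (hg : ∀ j, Sysb (g j)) (X : ℕ) (hX : 2 ≤ X) (R H ρ η : ℕ → ℝ) (hη : ∀ L, 0 < η L)
    (hρ : ∀ x, X ≤ x → R x ≤ ρ (Nat.clog 2 x)) (hηH : ∀ x, X ≤ x → 4 * η (Nat.clog 2 x) ≤ H x)
    (E : Finset ι) (hE : E ⊆ Ω) (hbad : ∀ i ∈ E, ∃ x : ℕ, X ≤ x ∧ ∃ j : ℕ, (j : ℝ) ≤ R x ∧
      √(max (B x) (Vs (g j) (2 * x))) * H x < |∑ p ∈ pri x, (g j p (v i) - mean p (g j p))|) :
    ∃ I : Finset ℕ, (∀ L ∈ I, Nat.clog 2 X ≤ L) ∧ ∑ i ∈ E, w i ≤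
      ∑ L ∈ I, ((L : ℝ) + 1) ^ 2 * (((⌊ρ L⌋₊ + 1 : ℕ) : ℝ) * ((1 + c) / (η L) ^ 2)) := by
  have hscale : ∀ x : ℕ, X ≤ x → x ≤ 2 ^ (Nat.clog 2 x) ∧ 2 ^ (Nat.clog 2 x) ≤ 2 * x := by
    intro x hXx
    have hxL : x ≤ 2 ^ (Nat.clog 2 x) := Nat.le_pow_clog (by norm_num) x
    have hL1 : 1 ≤ Nat.clog 2 x := by
      rcases Nat.eq_zero_or_pos (Nat.clog 2 x) with h | h
      · rw [h, pow_zero] at hxL
        omega
      · exact h
    refine ⟨hxL, ?_⟩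
    have h1 := Nat.pow_pred_clog_lt_self (by norm_num : 1 < 2) (by omega : 1 < x)
    have h2 : 2 ^ (Nat.clog 2 x) = 2 * 2 ^ ((Nat.clog 2 x).pred) := by
      rw [← pow_succ', Nat.pred_eq_sub_one, Nat.sub_add_cancel hL1]
    omega
  have hmax : ∀ j L, 0 < max (B (2 ^ L)) (Vs (g j) (2 ^ L)) := fun j L => lt_of_lt_of_le (hB0 _) (le_max_left _ _)
  obtain ⟨I, hI, hsum⟩ := scales Ω w hw v (fun x => c * B x) hV X g hg (fun L => range (⌊ρ L⌋₊ + 1))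
    (fun L j => √(max (B (2 ^ L)) (Vs (g j) (2 ^ L))) * η L)
    (fun L j => mul_pos (Real.sqrt_pos.2 (hmax j L)) (hη L)) E hE (by
      intro i hi
      obtain ⟨x, hXx, j, hj, hdev⟩ := hbad i hi
      refine ⟨x, hXx, j, ?_, lt_of_le_of_lt ?_ hdev⟩
      · rw [mem_range, Nat.lt_succ_iff]
        exact Nat.le_floor (hj.trans (hρ x hXx))
      · have h1 : √(max (B (2 ^ (Nat.clog 2 x))) (Vs (g j) (2 ^ (Nat.clog 2 x)))) ≤ 4 * √(max (B x) (Vs (g j) (2 * x))) := by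
          have e : (4 : ℝ) = √16 := by
            rw [show (16 : ℝ) = 4 ^ 2 by norm_num, Real.sqrt_sq (by norm_num)]
          rw [e, ← Real.sqrt_mul (by norm_num)]
          apply Real.sqrt_le_sqrt
          apply max_le
          · refine (hBm x _ (hscale x hXx).2).trans ?_
            exact mul_le_mul_of_nonneg_left (le_max_left _ _) (by norm_num)
          · refine (Vs_mono (g j) (hscale x hXx).2).trans ?_
            have h2 : Vs (g j) (2 * x) ≤ max (B x) (Vs (g j) (2 * x)) := le_max_right _ _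
            have h3 : 0 < max (B x) (Vs (g j) (2 * x)) := lt_of_lt_of_le (hB0 x) (le_max_left _ _)
            linarith
        calc √(max (B (2 ^ (Nat.clog 2 x))) (Vs (g j) (2 ^ (Nat.clog 2 x)))) * η (Nat.clog 2 x) ≤
              (4 * √(max (B x) (Vs (g j) (2 * x)))) * η (Nat.clog 2 x) := mul_le_mul_of_nonneg_right h1 (hη _).le
          _ = √(max (B x) (Vs (g j) (2 * x))) * (4 * η (Nat.clog 2 x)) := by ring
          _ ≤ √(max (B x) (Vs (g j) (2 * x))) * H x := mul_le_mul_of_nonneg_left (hηH x hXx) (Real.sqrt_nonneg _))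
  refine ⟨I, hI, hsum.trans ?_⟩
  apply sum_le_sum
  intro L _
  apply mul_le_mul_of_nonneg_left _ (by positivity)
  have h1 : ∀ j ∈ range (⌊ρ L⌋₊ + 1), (Vs (g j) (2 ^ L) + c * B (2 ^ L)) / (√(max (B (2 ^ L)) (Vs (g j) (2 ^ L))) * η L) ^ 2 ≤
      (1 + c) / (η L) ^ 2 := by
    intro j _
    have hm := hmax j L
    rw [mul_pow, Real.sq_sqrt hm.le, div_le_div_iff₀ (mul_pos hm (pow_pos (hη L) 2)) (pow_pos (hη L) 2)]
    have h2 : Vs (g j) (2 ^ L) + c * B (2 ^ L) ≤ (1 + c) * max (B (2 ^ L)) (Vs (g j) (2 ^ L)) := by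
      have h3 : Vs (g j) (2 ^ L) ≤ max (B (2 ^ L)) (Vs (g j) (2 ^ L)) := le_max_right _ _
      have h4 : c * B (2 ^ L) ≤ c * max (B (2 ^ L)) (Vs (g j) (2 ^ L)) := mul_le_mul_of_nonneg_left (le_max_left _ _) hc
      linarith
    calc (Vs (g j) (2 ^ L) + c * B (2 ^ L)) * η L ^ 2 ≤ ((1 + c) * max (B (2 ^ L)) (Vs (g j) (2 ^ L))) * η L ^ 2 :=
          mul_le_mul_of_nonneg_right h2 (by positivity)
      _ = _ := by ring
  refine (sum_le_card_nsmul _ _ _ h1).trans ?_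
  rw [card_range, nsmul_eq_mul]

/-- powers of `x` -/
theorem fineP (δ : ℝ) (hδ : 0 < δ) (hδ1 : δ ≤ 1 / 2) (c : ℝ) (hc : 0 ≤ c) : ∃ X₀ : ℕ, ∀ X : ℕ, X₀ ≤ X →
    ∀ (ι : Type) (Ω : Finset ι) (w : ι → ℝ), (∀ i ∈ Ω, 0 ≤ w i) → ∀ (v : ι → ℤ) (B : ℕ → ℝ), (∀ x, 0 < B x) →
    (∀ x L : ℕ, 2 ^ L ≤ 2 * x → B (2 ^ L) ≤ 16 * B x) → VarB Ω w v (fun x => c * B x) →
    ∀ g : ℕ → ℕ → ℤ → ℝ, (∀ j, Sysb (g j)) → ∀ E : Finset ι, E ⊆ Ω → (∀ i ∈ E, ∃ x : ℕ, X ≤ x ∧ ∃ j : ℕ,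
      (j : ℝ) ≤ (x : ℝ) ^ (δ / 2) ∧
      √(max (B x) (Vs (g j) (2 * x))) * (x : ℝ) ^ δ < |∑ p ∈ pri x, (g j p (v i) - mean p (g j p))|) →
    ∑ i ∈ E, w i ≤ (X : ℝ) ^ (-(δ / 2)) := by
  obtain ⟨X₁, hX₁⟩ := tail2 (128 * (1 + c)) δ 2 (by positivity) hδ
  refine ⟨X₁ + 2, fun X hX ι Ω w hw v B hB0 hBm hV g hg E hE hbad => ?_⟩
  have hclog : ∀ x : ℕ, X ≤ x → (2 : ℝ) ^ (δ * (Nat.clog 2 x : ℕ)) ≤ 2 * (x : ℝ) ^ δ := by
    intro x hXx
    have hxL : x ≤ 2 ^ (Nat.clog 2 x) := Nat.le_pow_clog (by norm_num) x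
    have hL1 : 1 ≤ Nat.clog 2 x := by
      rcases Nat.eq_zero_or_pos (Nat.clog 2 x) with h | h
      · rw [h, pow_zero] at hxL
        omega
      · exact h
    have h1 := Nat.pow_pred_clog_lt_self (by norm_num : 1 < 2) (by omega : 1 < x)
    have h2 : 2 ^ (Nat.clog 2 x) = 2 * 2 ^ ((Nat.clog 2 x).pred) := by
      rw [← pow_succ', Nat.pred_eq_sub_one, Nat.sub_add_cancel hL1]
    have h3 : 2 ^ (Nat.clog 2 x) ≤ 2 * x := by omega
    have h4 : ((2 : ℝ) ^ (Nat.clog 2 x)) ≤ 2 * x := by exact_mod_cast h3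
    calc (2 : ℝ) ^ (δ * (Nat.clog 2 x : ℕ)) = ((2 : ℝ) ^ (Nat.clog 2 x)) ^ δ := by
          rw [← Real.rpow_natCast, ← Real.rpow_mul (by norm_num)]
          congr 1
          ring
      _ ≤ (2 * x) ^ δ := Real.rpow_le_rpow (by positivity) h4 hδ.le
      _ = 2 ^ δ * (x : ℝ) ^ δ := Real.mul_rpow (by norm_num) (Nat.cast_nonneg _)
      _ ≤ 2 ^ (1 : ℝ) * (x : ℝ) ^ δ := by
          apply mul_le_mul_of_nonneg_right _ (by positivity)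
          exact Real.rpow_le_rpow_of_exponent_le (by norm_num) (by linarith)
      _ = _ := by rw [Real.rpow_one]
  obtain ⟨I, hI, hsum⟩ := fineG Ω w hw v B hB0 hBm c hc hV g hg X (by omega) (fun x => (x : ℝ) ^ (δ / 2)) (fun x => (x : ℝ) ^ δ)
    (fun L => (2 : ℝ) ^ (δ / 2 * L)) (fun L => (2 : ℝ) ^ (δ * L) / 8) (fun L => by positivity) (by
      intro x hXx
      have hxL : (x : ℝ) ≤ (2 : ℝ) ^ (Nat.clog 2 x) := by exact_mod_cast Nat.le_pow_clog (by norm_num) x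
      calc (x : ℝ) ^ (δ / 2) ≤ ((2 : ℝ) ^ (Nat.clog 2 x)) ^ (δ / 2) := Real.rpow_le_rpow (Nat.cast_nonneg _) hxL (by linarith)
        _ = (2 : ℝ) ^ (δ / 2 * (Nat.clog 2 x : ℕ)) := by
            rw [← Real.rpow_natCast, ← Real.rpow_mul (by norm_num)]
            congr 1
            ring) (by
      intro x hXx
      have := hclog x hXx
      linarith) E hE hbad
  refine hsum.trans (le_trans ?_ (hX₁ X (by omega) I hI))
  apply sum_le_sum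
  intro L _
  have hL0 : (0 : ℝ) ≤ L := Nat.cast_nonneg _
  have h1 : ((⌊(2 : ℝ) ^ (δ / 2 * L)⌋₊ + 1 : ℕ) : ℝ) ≤ 2 * (2 : ℝ) ^ (δ / 2 * L) := by
    have h4 : (⌊(2 : ℝ) ^ (δ / 2 * L)⌋₊ : ℝ) ≤ (2 : ℝ) ^ (δ / 2 * L) := Nat.floor_le (by positivity)
    have h5 : (1 : ℝ) ≤ (2 : ℝ) ^ (δ / 2 * L) := Real.one_le_rpow (by norm_num) (by positivity)
    push_cast
    linarith
  have h2 : (1 + c) / ((2 : ℝ) ^ (δ * L) / 8) ^ 2 = 64 * (1 + c) * (2 : ℝ) ^ (-(2 * δ * L)) := by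
    have e : ((2 : ℝ) ^ (δ * L)) ^ 2 = (2 : ℝ) ^ (2 * δ * L) := by
      rw [← Real.rpow_natCast ((2 : ℝ) ^ (δ * L)) 2, ← Real.rpow_mul (by norm_num)]
      congr 1
      push_cast
      ring
    rw [div_pow, e, Real.rpow_neg (by norm_num)]
    have h3 : (2 : ℝ) ^ (2 * δ * L) ≠ 0 := by positivity
    field_simp
    norm_num
  rw [h2]
  have h3 : (2 : ℝ) ^ (δ / 2 * L) * (2 : ℝ) ^ (-(2 * δ * L)) ≤ (2 : ℝ) ^ (-(δ * L)) := by
    rw [← Real.rpow_add (by norm_num)]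
    apply Real.rpow_le_rpow_of_exponent_le (by norm_num)
    nlinarith [mul_nonneg hδ.le hL0]
  calc ((L : ℝ) + 1) ^ 2 * (((⌊(2 : ℝ) ^ (δ / 2 * L)⌋₊ + 1 : ℕ) : ℝ) * (64 * (1 + c) * (2 : ℝ) ^ (-(2 * δ * L)))) ≤
        (L + 1) ^ 2 * ((2 * (2 : ℝ) ^ (δ / 2 * L)) * (64 * (1 + c) * (2 : ℝ) ^ (-(2 * δ * L)))) := by
          apply mul_le_mul_of_nonneg_left _ (by positivity)
          exact mul_le_mul_of_nonneg_right h1 (by positivity)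
    _ = 128 * (1 + c) * (L + 1) ^ 2 * ((2 : ℝ) ^ (δ / 2 * L) * (2 : ℝ) ^ (-(2 * δ * L))) := by ring
    _ ≤ 128 * (1 + c) * (L + 1) ^ 2 * (2 : ℝ) ^ (-(δ * L)) := mul_le_mul_of_nonneg_left h3 (by positivity)

/-- the tail of a series -/
lemma tail3 (K L₁ : ℕ) (hL₁ : 1 ≤ L₁) (I : Finset ℕ) (hI : ∀ L ∈ I, L₁ ≤ L) :
    ∑ L ∈ I, 1 / ((L : ℝ) + 1) ^ (K + 2) ≤ 1 / (L₁ : ℝ) ^ (K + 1) := by
  have hL0 : (0 : ℝ) < L₁ := by exact_mod_cast hL₁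
  have h1 : ∑ L ∈ I, 1 / ((L : ℝ) + 1) ^ 2 ≤ 1 / (L₁ : ℝ) := by
    obtain ⟨M, hM⟩ : ∃ M, ∀ L ∈ I, L < M := ⟨I.sup id + 1, fun L hL => by
      have := Finset.le_sup (f := id) hL
      simp only [id] at this
      omega⟩
    have h2 : I ⊆ Ico L₁ (L₁ + M) := by
      intro L hL
      rw [mem_Ico]
      have := hI L hL
      have := hM L hL
      omega
    refine (sum_le_sum_of_subset_of_nonneg h2 (fun L _ _ => by positivity)).trans ?_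
    have h3 : ∀ m : ℕ, ∑ L ∈ Ico L₁ (L₁ + m), 1 / ((L : ℝ) + 1) ^ 2 ≤ 1 / (L₁ : ℝ) - 1 / ((L₁ + m : ℕ) : ℝ) := by
      intro m
      induction m with
      | zero => simp
      | succ m ih =>
        rw [← add_assoc, sum_Ico_succ_top (by omega)]
        have h4 : (0 : ℝ) < ((L₁ + m : ℕ) : ℝ) := by positivity
        obtain ⟨t, ht⟩ : ∃ t : ℝ, t = ((L₁ + m : ℕ) : ℝ) := ⟨_, rfl⟩
        have e : ((L₁ + m + 1 : ℕ) : ℝ) = t + 1 := by rw [ht]; push_cast; ring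
        rw [← ht] at ih h4 ⊢
        rw [e]
        have h5 : 1 / (t + 1) ^ 2 ≤ 1 / t - 1 / (t + 1) := by
          have e2 : 1 / t - 1 / (t + 1) = 1 / (t * (t + 1)) := by
            field_simp
            ring
          rw [e2]
          apply one_div_le_one_div_of_le (by positivity)
          nlinarith
        linarith
    have h4 : (0 : ℝ) ≤ 1 / ((L₁ + M : ℕ) : ℝ) := by positivity
    linarith [h3 M]
  calc ∑ L ∈ I, 1 / ((L : ℝ) + 1) ^ (K + 2) ≤ ∑ L ∈ I, 1 / (L₁ : ℝ) ^ K * (1 / ((L : ℝ) + 1) ^ 2) := by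
        apply sum_le_sum
        intro L hL
        rw [pow_add, ← one_div_mul_one_div]
        apply mul_le_mul_of_nonneg_right _ (by positivity)
        apply one_div_le_one_div_of_le (by positivity)
        apply pow_le_pow_left₀ hL0.le
        have : (L₁ : ℝ) ≤ L := by exact_mod_cast hI L hL
        linarith
    _ = 1 / (L₁ : ℝ) ^ K * ∑ L ∈ I, 1 / ((L : ℝ) + 1) ^ 2 := by rw [mul_sum]
    _ ≤ 1 / (L₁ : ℝ) ^ K * (1 / (L₁ : ℝ)) := mul_le_mul_of_nonneg_left h1 (by positivity)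
    _ = _ := by rw [one_div_mul_one_div, pow_succ]

/-- powers of `log x` -/
theorem fineL (K : ℕ) (c : ℝ) (hc : 0 ≤ c) : ∃ X₀ : ℕ, ∀ X : ℕ, X₀ ≤ X →
    ∀ (ι : Type) (Ω : Finset ι) (w : ι → ℝ), (∀ i ∈ Ω, 0 ≤ w i) → ∀ (v : ι → ℤ) (B : ℕ → ℝ), (∀ x, 0 < B x) →
    (∀ x L : ℕ, 2 ^ L ≤ 2 * x → B (2 ^ L) ≤ 16 * B x) → VarB Ω w v (fun x => c * B x) →
    ∀ g : ℕ → ℕ → ℤ → ℝ, (∀ j, Sysb (g j)) → ∀ E : Finset ι, E ⊆ Ω → (∀ i ∈ E, ∃ x : ℕ, X ≤ x ∧ ∃ j : ℕ,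
      (j : ℝ) ≤ (Real.log x) ^ K ∧
      √(max (B x) (Vs (g j) (2 * x))) * (Real.log x) ^ (K + 2) < |∑ p ∈ pri x, (g j p (v i) - mean p (g j p))|) →
    ∑ i ∈ E, w i ≤ 1 / (2 * (Real.log X) ^ K) := by
  obtain ⟨C, hC⟩ : ∃ C : ℝ, C = 32 * (1 + c) * 5 ^ (2 * (K + 2)) := ⟨_, rfl⟩
  have hC0 : 0 < C := by rw [hC]; positivity
  obtain ⟨L₀, hL₀⟩ : ∃ L₀ : ℕ, 2 * C ≤ L₀ := exists_nat_ge _
  refine ⟨2 ^ L₀ + 4, fun X hX ι Ω w hw v B hB0 hBm hV g hg E hE hbad => ?_⟩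
  have hpo : 1 ≤ 2 ^ L₀ := Nat.one_le_two_pow
  have hlog2 : Real.log 2 ≤ 1 := by
    have := Real.log_le_sub_one_of_pos (show (0 : ℝ) < 2 by norm_num)
    linarith
  have hlog2' : (0.69 : ℝ) ≤ Real.log 2 := by
    have := Real.log_two_gt_d9
    linarith
  have hcl : ∀ x : ℕ, X ≤ x → x ≤ 2 ^ (Nat.clog 2 x) ∧ 2 ≤ Nat.clog 2 x ∧ 2 ^ (Nat.clog 2 x - 1) ≤ x := by
    intro x hXx
    have hxL : x ≤ 2 ^ (Nat.clog 2 x) := Nat.le_pow_clog (by norm_num) x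
    have hL1 : 2 ≤ Nat.clog 2 x := by
      by_contra hcon
      have h1 : 2 ^ (Nat.clog 2 x) ≤ 2 ^ 1 := Nat.pow_le_pow_right (by norm_num) (by omega)
      omega
    refine ⟨hxL, hL1, ?_⟩
    have h1 := Nat.pow_pred_clog_lt_self (by norm_num : 1 < 2) (by omega : 1 < x)
    rw [Nat.pred_eq_sub_one] at h1
    exact h1.le
  obtain ⟨I, hI, hsum⟩ := fineG Ω w hw v B hB0 hBm c hc hV g hg X (by omega) (fun x => (Real.log x) ^ K)
    (fun x => (Real.log x) ^ (K + 2)) (fun L => (L : ℝ) ^ K) (fun L => (((L : ℝ) + 1) / 5) ^ (K + 2) / 4) (fun L => by positivity) (by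
      intro x hXx
      obtain ⟨h1, h2, h3⟩ := hcl x hXx
      have hx0 : (0 : ℝ) < x := by exact_mod_cast (by omega : 0 < x)
      have hx1 : (1 : ℝ) ≤ x := by exact_mod_cast (by omega : 1 ≤ x)
      apply pow_le_pow_left₀ (Real.log_nonneg hx1)
      have h4 : (x : ℝ) ≤ (2 : ℝ) ^ (Nat.clog 2 x) := by exact_mod_cast h1
      have h5 := Real.log_le_log hx0 h4
      rw [Real.log_pow] at h5
      have h6 : (Nat.clog 2 x : ℝ) * Real.log 2 ≤ (Nat.clog 2 x : ℝ) * 1 := mul_le_mul_of_nonneg_left hlog2 (Nat.cast_nonneg _)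
      linarith) (by
      intro x hXx
      obtain ⟨h1, h2, h3⟩ := hcl x hXx
      have h4 : ((2 : ℝ) ^ (Nat.clog 2 x - 1)) ≤ x := by exact_mod_cast h3
      have h5 := Real.log_le_log (by positivity) h4
      rw [Real.log_pow, Nat.cast_sub (by omega)] at h5
      push_cast at h5
      have h6 : (2 : ℝ) ≤ (Nat.clog 2 x : ℝ) := by exact_mod_cast h2
      have h7 : ((Nat.clog 2 x : ℝ) + 1) / 5 ≤ Real.log x := by nlinarith
      have h8 := pow_le_pow_left₀ (by positivity) h7 (K + 2)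
      linarith) E hE hbad
  have hXL : L₀ ≤ Nat.clog 2 X := by
    have h1 := Nat.le_pow_clog (by norm_num : 1 < 2) X
    have h2 : 2 ^ L₀ ≤ 2 ^ (Nat.clog 2 X) := by omega
    exact (Nat.pow_le_pow_iff_right (by norm_num)).1 h2
  obtain ⟨h1, h2, h3⟩ := hcl X le_rfl
  obtain ⟨L₁, hL₁⟩ : ∃ L₁, L₁ = Nat.clog 2 X := ⟨_, rfl⟩
  rw [← hL₁] at hI hXL h1 h2
  have hL1r : (2 : ℝ) ≤ L₁ := by exact_mod_cast h2
  have h4 := tail3 K L₁ (by omega) I hI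
  have h5 : ∑ L ∈ I, ((L : ℝ) + 1) ^ 2 * (((⌊(L : ℝ) ^ K⌋₊ + 1 : ℕ) : ℝ) * ((1 + c) / ((((L : ℝ) + 1) / 5) ^ (K + 2) / 4) ^ 2)) ≤
      ∑ L ∈ I, C * (1 / ((L : ℝ) + 1) ^ (K + 2)) := by
    apply sum_le_sum
    intro L _
    obtain ⟨t, ht⟩ : ∃ t : ℝ, t = (L : ℝ) + 1 := ⟨_, rfl⟩
    have ht1 : 1 ≤ t := by
      rw [ht]
      have : (0 : ℝ) ≤ L := Nat.cast_nonneg _
      linarith
    have ht0 : 0 < t := by linarith
    have h6 : ((⌊(L : ℝ) ^ K⌋₊ + 1 : ℕ) : ℝ) ≤ 2 * t ^ K := by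
      have h7 : (⌊(L : ℝ) ^ K⌋₊ : ℝ) ≤ (L : ℝ) ^ K := Nat.floor_le (by positivity)
      have h8 : (L : ℝ) ^ K ≤ t ^ K := pow_le_pow_left₀ (Nat.cast_nonneg _) (by linarith) K
      have h9 : 1 ≤ t ^ K := one_le_pow₀ ht1
      push_cast
      linarith
    rw [← ht]
    calc t ^ 2 * (((⌊(L : ℝ) ^ K⌋₊ + 1 : ℕ) : ℝ) * ((1 + c) / ((t / 5) ^ (K + 2) / 4) ^ 2)) ≤
          t ^ 2 * ((2 * t ^ K) * ((1 + c) / ((t / 5) ^ (K + 2) / 4) ^ 2)) := by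
            apply mul_le_mul_of_nonneg_left _ (by positivity)
            exact mul_le_mul_of_nonneg_right h6 (by positivity)
      _ = C * (1 / t ^ (K + 2)) := by
            have e : ((t / 5) ^ (K + 2) / 4) ^ 2 = (t ^ (K + 2)) ^ 2 / (5 ^ (2 * (K + 2)) * 16) := by
              rw [div_pow, div_pow, div_pow, ← pow_mul 5, mul_comm (K + 2) 2, div_div]
              norm_num
            rw [e, hC]
            have h7 : t ^ (K + 2) = t ^ K * t ^ 2 := pow_add _ _ _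
            rw [h7]
            field_simp
            ring
  refine hsum.trans (h5.trans ?_)
  rw [← mul_sum]
  calc C * ∑ L ∈ I, 1 / ((L : ℝ) + 1) ^ (K + 2) ≤ C * (1 / (L₁ : ℝ) ^ (K + 1)) := mul_le_mul_of_nonneg_left h4 hC0.le
    _ = (2 * C / L₁) * (1 / (2 * (L₁ : ℝ) ^ K)) := by
        rw [pow_succ]
        have : (L₁ : ℝ) ≠ 0 := by linarith
        field_simp
    _ ≤ 1 * (1 / (2 * (L₁ : ℝ) ^ K)) := by
        apply mul_le_mul_of_nonneg_right _ (by positivity)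
        rw [div_le_one (by linarith)]
        refine hL₀.trans ?_
        exact_mod_cast hXL
    _ ≤ 1 / (2 * (Real.log X) ^ K) := by
        rw [one_mul]
        have hX1 : (4 : ℝ) ≤ X := by exact_mod_cast (by omega : 4 ≤ X)
        have hlX : 0 < Real.log X := Real.log_pos (by linarith)
        apply one_div_le_one_div_of_le (by positivity)
        apply mul_le_mul_of_nonneg_left _ (by norm_num)
        apply pow_le_pow_left₀ hlX.le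
        have h4 : (X : ℝ) ≤ (2 : ℝ) ^ L₁ := by exact_mod_cast h1
        have h5 := Real.log_le_log (by linarith) h4
        rw [Real.log_pow] at h5
        have h6 : (L₁ : ℝ) * Real.log 2 ≤ (L₁ : ℝ) * 1 := mul_le_mul_of_nonneg_left hlog2 (Nat.cast_nonneg _)
        linarith

end Pool.Agent.J4.H25.LT
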