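import Pool.Agent.J4.H25.LT.V3

/-! Two parameters: the counts of the primes with a given property. (The first lemmas are those of `Pool.Agent.R459`.) -/

set_option autoImplicit false

namespace Pool.Agent.J4.H25.LT
open Finset
open Pool.Agent.H807R2.Dav

/-- a system of functions of two parameters with values in `[0, 1]` -/
def Sys2 (g : ℕ → ℤ → ℤ → ℝ) : Prop :=
  (∀ p : ℕ, p.Prime → ∀ a a' n n' : ℤ, (p : ℤ) ∣ a - a' → (p : ℤ) ∣ n - n' → g p a n = g p a' n') ∧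
  (∀ p : ℕ, p.Prime → ∀ a n : ℤ, 0 ≤ g p a n ∧ g p a n ≤ 1)

/-- the mean over the second parameter -/
noncomputable def Av (g : ℕ → ℤ → ℤ → ℝ) (p : ℕ) (a : ℤ) : ℝ := mean p (g p a)

lemma sys2_fst (g : ℕ → ℤ → ℤ → ℝ) (hg : Sys2 g) (a : ℤ) : Sysb (fun p n => g p a n) := by
  refine ⟨fun p hp m n h => hg.1 p hp a a m n (by simp) h, fun p hp n => ?_⟩
  have := hg.2 p hp a n
  rw [abs_le]
  constructor <;> linarith [this.1, this.2]

lemma Av_mem (g : ℕ → ℤ → ℤ → ℝ) (hg : Sys2 g) (p : ℕ) (hp : p.Prime) (a : ℤ) : 0 ≤ Av g p a ∧ Av g p a ≤ 1 :=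
  mean_mem p hp.one_le (g p a) (hg.2 p hp a)

lemma Av_sysb (g : ℕ → ℤ → ℤ → ℝ) (hg : Sys2 g) : Sysb (Av g) := by
  constructor
  · intro p hp m n h
    unfold Av mean
    congr 1
    apply sum_congr rfl
    intro t _
    exact hg.1 p hp m n t t h (by simp)
  · intro p hp n
    have := Av_mem g hg p hp n
    rw [abs_le]
    constructor <;> linarith [this.1, this.2]

lemma Vs_le (g : ℕ → ℤ → ℝ) (hg : ∀ p : ℕ, p.Prime → ∀ n, 0 ≤ g p n ∧ g p n ≤ 1) (x : ℕ) : Vs g x ≤ ∑ p ∈ pri x, mean p (g p) := by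
  unfold Vs
  apply sum_le_sum
  intro p hp
  apply mean_mono
  intro t _
  have h := hg p (mem_pri.1 hp).2 (t : ℤ)
  nlinarith [h.1, h.2]

open Classical in
/-- the number of the primes `p ≤ x` with the property -/
noncomputable def cntR (R : ℕ → ℤ → ℤ → Prop) (a n : ℤ) (x : ℕ) : ℕ := ((pri x).filter (fun p => R p a n)).card

open Classical in
/-- the proportion of the residues with the property -/
noncomputable def dens (R : ℕ → ℤ → ℤ → Prop) (a : ℤ) (p : ℕ) : ℝ := (((range p).filter (fun t : ℕ => R p a t)).card : ℝ) / p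

open Classical in
/-- the proportion of the pairs of residues with the property -/
noncomputable def dens2 (R : ℕ → ℤ → ℤ → Prop) (p : ℕ) : ℝ :=
  (((range p ×ˢ range p).filter (fun z : ℕ × ℕ => R p z.1 z.2)).card : ℝ) / (p : ℝ) ^ 2

open Classical in
/-- the indicator function -/
noncomputable def indR (R : ℕ → ℤ → ℤ → Prop) (p : ℕ) (a n : ℤ) : ℝ := if R p a n then 1 else 0

lemma ind_sum (R : ℕ → ℤ → ℤ → Prop) (a n : ℤ) (x : ℕ) : ∑ p ∈ pri x, indR R p a n = cntR R a n x := by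
  unfold indR cntR
  rw [sum_boole]

lemma ind_av (R : ℕ → ℤ → ℤ → Prop) (p : ℕ) (a : ℤ) : Av (indR R) p a = dens R a p := by
  unfold Av mean indR dens
  rw [sum_boole]

lemma ind_av2 (R : ℕ → ℤ → ℤ → Prop) (p : ℕ) : mean p (Av (indR R) p) = dens2 R p := by
  classical
  unfold mean
  simp only [ind_av]
  unfold dens dens2
  rw [← sum_div, div_div, ← sq]
  congr 1
  rw [← Nat.cast_sum]
  congr 1
  rw [card_filter, sum_product]
  apply sum_congr rfl
  intro t _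
  rw [card_filter]

/-- almost all members have the property -/
def AlW {ι : Type} (Ω : Finset ι) (w : ι → ℝ) (v : ι → ℤ) (τ : ℝ) (P : ℤ → Prop) : Prop :=
  ∀ E : Finset ι, E ⊆ Ω → (∀ i ∈ E, ¬ P (v i)) → ∑ i ∈ E, w i ≤ τ

lemma AlW.mono {ι : Type} {Ω : Finset ι} {w : ι → ℝ} {v : ι → ℤ} {τ : ℝ} {P Q : ℤ → Prop} (h : AlW Ω w v τ P)
    (hPQ : ∀ n, P n → Q n) : AlW Ω w v τ Q := fun E hE hbad => h E hE fun i hi hP => hbad i hi (hPQ _ hP)

lemma AlW.and {ι : Type} {Ω : Finset ι} {w : ι → ℝ} {v : ι → ℤ} {τ τ' : ℝ} {P Q : ℤ → Prop} (h : AlW Ω w v τ P)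
    (h' : AlW Ω w v τ' Q) : AlW Ω w v (τ + τ') (fun n => P n ∧ Q n) := by
  classical
  intro E hE hbad
  have h1 := h (E.filter (fun i => ¬ P (v i))) ((filter_subset _ _).trans hE) (by
    intro i hi
    exact (mem_filter.1 hi).2)
  have h2 := h' (E.filter (fun i => ¬ ¬ P (v i))) ((filter_subset _ _).trans hE) (by
    intro i hi hQ
    rw [mem_filter, not_not] at hi
    exact hbad i hi.1 ⟨hi.2, hQ⟩)
  rw [← sum_filter_add_sum_filter_not E (fun i => ¬ P (v i))]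
  linarith

/-- the conclusion for systems -/
def Works {ι : Type} (Ω : Finset ι) (w : ι → ℝ) (v : ι → ℤ) (B : ℕ → ℝ) (X : ℕ) (R H : ℕ → ℝ) (τ : ℝ) : Prop :=
  ∀ g : ℕ → ℕ → ℤ → ℝ, (∀ j, Sysb (g j)) → ∀ E : Finset ι, E ⊆ Ω → (∀ i ∈ E, ∃ x : ℕ, X ≤ x ∧ ∃ j : ℕ, (j : ℝ) ≤ R x ∧
      √(max (B x) (Vs (g j) (2 * x))) * H x < |∑ p ∈ pri x, (g j p (v i) - mean p (g j p))|) → ∑ i ∈ E, w i ≤ τ

/-- **two parameters** -/
theorem two_count {ι : Type} (Ω : Finset ι) (w : ι → ℝ) (v : ι → ℤ) (B : ℕ → ℝ) (X : ℕ) (R H : ℕ → ℝ) (τ : ℝ)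
    (hW : Works Ω w v B X R H τ) (hH : ∀ x, X ≤ x → 0 ≤ H x) (S : ℕ → ℕ → ℤ → ℤ → Prop)
    (hper : ∀ j p : ℕ, p.Prime → ∀ a a' n n' : ℤ, (p : ℤ) ∣ a - a' → (p : ℤ) ∣ n - n' → (S j p a n ↔ S j p a' n')) :
    (∀ a : ℤ, AlW Ω w v τ (fun n => ∀ x : ℕ, X ≤ x → ∀ j : ℕ, (j : ℝ) ≤ R x →
      |(cntR (S j) a n x : ℝ) - ∑ p ∈ pri x, dens (S j) a p| ≤ √(max (B x) (∑ p ∈ pri (2 * x), dens (S j) a p)) * H x)) ∧
    AlW Ω w v τ (fun a => ∀ x : ℕ, X ≤ x → ∀ j : ℕ, (j : ℝ) ≤ R x →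
      |∑ p ∈ pri x, dens (S j) a p - ∑ p ∈ pri x, dens2 (S j) p| ≤ √(max (B x) (∑ p ∈ pri (2 * x), dens2 (S j) p)) * H x) := by
  classical
  obtain ⟨g, hg⟩ : ∃ g : ℕ → ℕ → ℤ → ℤ → ℝ, g = fun j => indR (S j) := ⟨_, rfl⟩
  have hgS : ∀ j, Sys2 (g j) := by
    intro j
    rw [hg]
    constructor
    · intro p hp a a' n n' h h'
      simp only [indR]
      simp only [hper j p hp a a' n n' h h']
    · intro p _ a n
      simp only [indR]
      split_ifs <;> norm_num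
  constructor
  · intro a E hE hbad
    refine hW (fun j p n => g j p a n) (fun j => sys2_fst (g j) (hgS j) a) E hE ?_
    intro i hi
    have h1 := hbad i hi
    push Not at h1
    obtain ⟨x, hXx, j, hj, h2⟩ := h1
    refine ⟨x, hXx, j, hj, lt_of_le_of_lt ?_ (h2.trans_eq ?_)⟩
    · apply mul_le_mul_of_nonneg_right _ (hH x hXx)
      apply Real.sqrt_le_sqrt
      apply max_le_max le_rfl
      refine (Vs_le (fun p n => g j p a n) (fun p hp n => (hgS j).2 p hp a n) (2 * x)).trans (le_of_eq ?_)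
      apply sum_congr rfl
      intro p _
      rw [hg]
      exact ind_av (S j) p a
    · rw [sum_sub_distrib]
      congr 2
      · rw [← ind_sum, hg]
      · apply sum_congr rfl
        intro p _
        rw [hg]
        exact (ind_av (S j) p a).symm
  · intro E hE hbad
    refine hW (fun j => Av (g j)) (fun j => Av_sysb (g j) (hgS j)) E hE ?_
    intro i hi
    have h1 := hbad i hi
    push Not at h1
    obtain ⟨x, hXx, j, hj, h2⟩ := h1
    refine ⟨x, hXx, j, hj, lt_of_le_of_lt ?_ (h2.trans_eq ?_)⟩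
    · apply mul_le_mul_of_nonneg_right _ (hH x hXx)
      apply Real.sqrt_le_sqrt
      apply max_le_max le_rfl
      refine (Vs_le (Av (g j)) (fun p hp n => Av_mem (g j) (hgS j) p hp n) (2 * x)).trans (le_of_eq ?_)
      apply sum_congr rfl
      intro p _
      rw [hg]
      exact ind_av2 (S j) p
    · rw [sum_sub_distrib]
      congr 2
      · apply sum_congr rfl
        intro p _
        rw [hg]
        exact (ind_av (S j) p (v i)).symm
      · apply sum_congr rfl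
        intro p _
        rw [hg]
        exact (ind_av2 (S j) p).symm

end Pool.Agent.J4.H25.LT
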