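import Pool.Agent.J4.H25.LT.V4
import Pool.Agent.Helper112.LS

/-! The large sieve for the sums of the elements of two sets. -/

set_option autoImplicit false

namespace Pool.Agent.J4.H25.LT
open Finset
open Pool.Agent.H807R2.Dav

lemma ee_eq_ee (x : ℝ) : Pool.Agent.Helper112.ee x = ee x := by
  unfold Pool.Agent.Helper112.ee ee
  congr 1
  ring

lemma ls_set (N F : ℕ) (B : Finset ℤ) (u : ℤ) (hB : ∀ b ∈ B, u < b ∧ b ≤ u + N) :
    ∑ f ∈ Icc 1 F, ∑ a ∈ (range f).filter (fun a => a.Coprime f), ‖∑ b ∈ B, ee ((b : ℝ) * ((a : ℝ) / f))‖ ^ 2 ≤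
      6 * (N + (F : ℝ) ^ 2) * B.card := by
  classical
  obtain ⟨α, hα⟩ : ∃ α : ℕ → ℂ, α = fun n : ℕ => if u + (n : ℤ) ∈ B then (1 : ℂ) else 0 := ⟨_, rfl⟩
  have h1 := Pool.Agent.Helper112.additive_large_sieve N F α
  have himg : B = ((Icc 1 N).filter (fun n : ℕ => u + (n : ℤ) ∈ B)).image (fun n : ℕ => u + (n : ℤ)) := by
    ext b
    rw [mem_image]
    constructor
    · intro hb
      obtain ⟨h2, h3⟩ := hB b hb
      refine ⟨(b - u).toNat, ?_, ?_⟩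
      · have e : u + (((b - u).toNat : ℕ) : ℤ) = b := by omega
        rw [mem_filter, mem_Icc, e]
        refine ⟨by omega, hb⟩
      · omega
    · rintro ⟨n, hn, rfl⟩
      exact (mem_filter.1 hn).2
  have hsum : ∀ h : ℤ → ℂ, ∑ b ∈ B, h b = ∑ n ∈ (Icc 1 N).filter (fun n : ℕ => u + (n : ℤ) ∈ B), h (u + n) := by
    intro h
    conv_lhs => rw [himg]
    rw [sum_image]
    intro n _ n' _ heq
    simp only [add_right_inj, Nat.cast_inj] at heq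
    exact heq
  have hcard : (B.card : ℝ) = ∑ n ∈ Icc 1 N, ‖α n‖ ^ 2 := by
    have h2 : ∀ n ∈ Icc 1 N, ‖α n‖ ^ 2 = if u + (n : ℤ) ∈ B then (1 : ℝ) else 0 := by
      intro n _
      rw [hα]
      simp only
      split_ifs <;> simp
    rw [sum_congr rfl h2, sum_boole]
    conv_lhs => rw [himg]
    rw [card_image_of_injective]
    intro n n' heq
    simp only [add_right_inj, Nat.cast_inj] at heq
    exact heq
  rw [hcard]
  refine le_trans (le_of_eq ?_) h1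
  apply sum_congr rfl
  intro f hf
  apply sum_congr rfl
  intro a _
  congr 1
  have e : ∑ n ∈ Icc 1 N, α n * Pool.Agent.Helper112.ee (n * a / f) =
      ee (-((u : ℝ) * ((a : ℝ) / f))) * ∑ b ∈ B, ee ((b : ℝ) * ((a : ℝ) / f)) := by
    rw [hsum, sum_filter, mul_sum]
    apply sum_congr rfl
    intro n _
    rw [hα]
    simp only
    split_ifs with h
    · rw [one_mul, ee_eq_ee, ← ee_add]
      congr 1
      push_cast
      ring
    · simp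
  rw [e, norm_mul, norm_ee, one_mul]

/-- the sums of the elements of two sets -/
lemma sumset_hm (N : ℕ) (B C : Finset ℤ) (hB1 : B.Nonempty) (hC1 : C.Nonempty) (u u' : ℤ)
    (hB : ∀ b ∈ B, u < b ∧ b ≤ u + N) (hC : ∀ c ∈ C, u' < c ∧ c ≤ u' + N) (F : ℕ) :
    ∑ m ∈ Icc 1 F, hm (B ×ˢ C) (fun _ => 1 / ((B.card : ℝ) * C.card)) (fun z => z.1 + z.2) m ≤
      6 * (N + (F : ℝ) ^ 2) / √((B.card : ℝ) * C.card) := by
  have hb0 : (0 : ℝ) < B.card := by exact_mod_cast hB1.card_pos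
  have hc0 : (0 : ℝ) < C.card := by exact_mod_cast hC1.card_pos
  have hbc : (0 : ℝ) < (B.card : ℝ) * C.card := mul_pos hb0 hc0
  have hfac : ∀ θ : ℝ, ‖chf (B ×ˢ C) (fun _ => 1 / ((B.card : ℝ) * C.card)) (fun z => z.1 + z.2) θ‖ =
      1 / ((B.card : ℝ) * C.card) * (‖∑ b ∈ B, ee ((b : ℝ) * θ)‖ * ‖∑ c ∈ C, ee ((c : ℝ) * θ)‖) := by
    intro θ
    unfold chf
    have e : ∑ i ∈ B ×ˢ C, (((1 / ((B.card : ℝ) * C.card) : ℝ)) : ℂ) * ee ((((i.1 + i.2 : ℤ)) : ℝ) * θ) =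
        (((1 / ((B.card : ℝ) * C.card) : ℝ)) : ℂ) * ((∑ b ∈ B, ee ((b : ℝ) * θ)) * (∑ c ∈ C, ee ((c : ℝ) * θ))) := by
      rw [sum_mul_sum, ← sum_product', mul_sum]
      apply sum_congr rfl
      intro z _
      rw [← ee_add]
      congr 2
      push_cast
      ring
    rw [e, norm_mul, norm_mul, Complex.norm_real, Real.norm_eq_abs, abs_of_pos (by positivity)]
  obtain ⟨Q, hQ⟩ : ∃ Q : Finset (Σ _ : ℕ, ℕ), Q = (Icc 1 F).sigma (fun f => (range f).filter (fun a => a.Coprime f)) := ⟨_, rfl⟩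
  have h1 : ∑ m ∈ Icc 1 F, hm (B ×ˢ C) (fun _ => 1 / ((B.card : ℝ) * C.card)) (fun z => z.1 + z.2) m =
      1 / ((B.card : ℝ) * C.card) * ∑ z ∈ Q, ‖∑ b ∈ B, ee ((b : ℝ) * ((z.2 : ℝ) / z.1))‖ * ‖∑ c ∈ C, ee ((c : ℝ) * ((z.2 : ℝ) / z.1))‖ := by
    rw [hQ, sum_sigma, mul_sum]
    apply sum_congr rfl
    intro m _
    unfold hm
    rw [mul_sum]
    apply sum_congr rfl
    intro a _
    rw [hfac]
  rw [h1]
  have h2 := ls_set N F B u hB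
  have h3 := ls_set N F C u' hC
  have h4 := sum_mul_sq_le_sq_mul_sq Q (fun z => ‖∑ b ∈ B, ee ((b : ℝ) * ((z.2 : ℝ) / z.1))‖)
    (fun z => ‖∑ c ∈ C, ee ((c : ℝ) * ((z.2 : ℝ) / z.1))‖)
  have h5 : ∑ z ∈ Q, ‖∑ b ∈ B, ee ((b : ℝ) * ((z.2 : ℝ) / z.1))‖ ^ 2 ≤ 6 * (N + (F : ℝ) ^ 2) * B.card := by
    rw [hQ, sum_sigma]
    exact h2
  have h6 : ∑ z ∈ Q, ‖∑ c ∈ C, ee ((c : ℝ) * ((z.2 : ℝ) / z.1))‖ ^ 2 ≤ 6 * (N + (F : ℝ) ^ 2) * C.card := by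
    rw [hQ, sum_sigma]
    exact h3
  obtain ⟨s, hs⟩ : ∃ s, s = ∑ z ∈ Q, ‖∑ b ∈ B, ee ((b : ℝ) * ((z.2 : ℝ) / z.1))‖ * ‖∑ c ∈ C, ee ((c : ℝ) * ((z.2 : ℝ) / z.1))‖ := ⟨_, rfl⟩
  rw [← hs]
  simp only at h4
  rw [← hs] at h4
  obtain ⟨G, hG⟩ : ∃ G : ℝ, G = 6 * (N + (F : ℝ) ^ 2) := ⟨_, rfl⟩
  have hG0 : 0 ≤ G := by rw [hG]; positivity
  rw [← hG] at h5 h6 ⊢
  have hD : 0 < √((B.card : ℝ) * C.card) := Real.sqrt_pos.2 hbc
  have hD2 : √((B.card : ℝ) * C.card) ^ 2 = (B.card : ℝ) * C.card := Real.sq_sqrt hbc.le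
  have h7 : s ^ 2 ≤ (G * √((B.card : ℝ) * C.card)) ^ 2 := by
    refine h4.trans ?_
    rw [mul_pow, hD2]
    calc _ ≤ (G * B.card) * (G * C.card) := mul_le_mul h5 h6 (sum_nonneg fun _ _ => sq_nonneg _) (by positivity)
      _ = _ := by ring
  have h8 : s ≤ G * √((B.card : ℝ) * C.card) := abs_le_of_sq_le_sq' h7 (by positivity) |>.2
  rw [one_div_mul_eq_div, div_le_div_iff₀ hbc hD]
  calc s * √((B.card : ℝ) * C.card) ≤ (G * √((B.card : ℝ) * C.card)) * √((B.card : ℝ) * C.card) :=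
        mul_le_mul_of_nonneg_right h8 hD.le
    _ = G * √((B.card : ℝ) * C.card) ^ 2 := by ring
    _ = _ := by rw [hD2]

/-- the error term -/
noncomputable def Bf (N : ℕ) (B C : Finset ℤ) (x : ℕ) : ℝ := (N + (x : ℝ) ^ 4) / √((B.card : ℝ) * C.card)

lemma sumset_pos (N : ℕ) (B C : Finset ℤ) (hB1 : B.Nonempty) (hC1 : C.Nonempty) (u : ℤ)
    (hB : ∀ b ∈ B, u < b ∧ b ≤ u + N) (x : ℕ) : 0 < Bf N B C x := by
  have hb0 : (0 : ℝ) < B.card := by exact_mod_cast hB1.card_pos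
  have hc0 : (0 : ℝ) < C.card := by exact_mod_cast hC1.card_pos
  have hN : 1 ≤ N := by
    obtain ⟨b, hb⟩ := hB1
    have := hB b hb
    omega
  have hN0 : (0 : ℝ) < N := by exact_mod_cast hN
  unfold Bf
  have : 0 < √((B.card : ℝ) * C.card) := Real.sqrt_pos.2 (mul_pos hb0 hc0)
  positivity

lemma sumset_mono (N : ℕ) (B C : Finset ℤ) (x L : ℕ) (h : 2 ^ L ≤ 2 * x) : Bf N B C (2 ^ L) ≤ 16 * Bf N B C x := by
  unfold Bf
  rw [← mul_div_assoc]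
  apply div_le_div_of_nonneg_right _ (Real.sqrt_nonneg _)
  have h1 : ((2 ^ L : ℕ) : ℝ) ≤ 2 * x := by exact_mod_cast h
  have h2 := pow_le_pow_left₀ (Nat.cast_nonneg _) h1 4
  have h3 : (0 : ℝ) ≤ N := Nat.cast_nonneg _
  calc (N : ℝ) + ((2 ^ L : ℕ) : ℝ) ^ 4 ≤ N + (2 * x) ^ 4 := by linarith
    _ ≤ 16 * (N + (x : ℝ) ^ 4) := by
        have : (2 * (x : ℝ)) ^ 4 = 16 * x ^ 4 := by ring
        rw [this]
        linarith

lemma sumset_VarB (N : ℕ) (B C : Finset ℤ) (hB1 : B.Nonempty) (hC1 : C.Nonempty) (u u' : ℤ)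
    (hB : ∀ b ∈ B, u < b ∧ b ≤ u + N) (hC : ∀ c ∈ C, u' < c ∧ c ≤ u' + N) :
    VarB (B ×ˢ C) (fun _ => 1 / ((B.card : ℝ) * C.card)) (fun z => z.1 + z.2) (fun x => 36 * Bf N B C x) := by
  have hb0 : (0 : ℝ) < B.card := by exact_mod_cast hB1.card_pos
  have hc0 : (0 : ℝ) < C.card := by exact_mod_cast hC1.card_pos
  intro x P hP J f hf hper
  refine (vL1 (B ×ˢ C) (fun _ => 1 / ((B.card : ℝ) * C.card)) ?_ (fun z => z.1 + z.2) x P hP J f hf hper).trans ?_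
  · rw [sum_const, card_product, nsmul_eq_mul]
    push_cast
    field_simp
  · have h1 := sumset_hm N B C hB1 hC1 u u' hB hC (x ^ 2)
    have e : (36 : ℝ) * Bf N B C x = 6 * (6 * (N + ((x ^ 2 : ℕ) : ℝ) ^ 2) / √((B.card : ℝ) * C.card)) := by
      unfold Bf
      push_cast
      ring
    show _ ≤ _ + 36 * Bf N B C x
    rw [e]
    linarith

end Pool.Agent.J4.H25.LT
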